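import Pool.Agent.Helper380.LD.Basic
set_option autoImplicit false
set_option linter.unusedSectionVars false
open Finset
open scoped BigOperators

namespace Pool.Agent.H380LD

variable {α ι : Type} [Fintype ι] [Nonempty ι] [DecidableEq α]

omit [Fintype ι] [Nonempty ι] in
lemma expect_split (V W : Finset α) (hW : W ⊆ V) (f : α → ℝ) (hWn : W.Nonempty) (hU : (V \ W).Nonempty) :
    𝔼 c ∈ V, f c = ((W.card : ℝ) / V.card) * (𝔼 c ∈ W, f c) + (((V \ W).card : ℝ) / V.card) * (𝔼 c ∈ V \ W, f c) := by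
  have hV : V.Nonempty := hWn.mono hW
  have h1 : (0:ℝ) < V.card := by exact_mod_cast hV.card_pos
  have h2 : (0:ℝ) < W.card := by exact_mod_cast hWn.card_pos
  have h3 : (0:ℝ) < (V \ W).card := by exact_mod_cast hU.card_pos
  rw [expect_eq_sum_div_card, expect_eq_sum_div_card, expect_eq_sum_div_card, ← sum_sdiff hW]
  field_simp
  ring

omit [Fintype ι] [Nonempty ι] in
lemma frac_add (V W : Finset α) (hW : W ⊆ V) (hWn : W.Nonempty) :
    ((W.card : ℝ) / V.card) + (((V \ W).card : ℝ) / V.card) = 1 := by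
  have hV : V.Nonempty := hWn.mono hW
  have h1 : (0:ℝ) < V.card := by exact_mod_cast hV.card_pos
  have h2 : ((V \ W).card : ℝ) + W.card = V.card := by exact_mod_cast card_sdiff_add_card_eq_card hW
  rw [← add_div, add_comm, h2, div_self h1.ne']

lemma MM_convex (X : α → ι → ℝ) (V W : Finset α) (hW : W ⊆ V) (hWn : W.Nonempty) (hU : (V \ W).Nonempty) :
    MM X V ≤ ((W.card : ℝ) / V.card) * MM X W + (((V \ W).card : ℝ) / V.card) * MM X (V \ W) := by
  have h1 := frac_add V W hW hWn
  have hp : 0 ≤ (W.card : ℝ) / V.card := by positivity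
  have hp' : 0 ≤ ((V \ W).card : ℝ) / V.card := by positivity
  unfold MM
  rw [mul_expect, mul_expect, ← expect_add_distrib]
  refine expect_le_expect (fun x _ => ?_)
  rw [mul_expect, mul_expect, ← expect_add_distrib]
  refine expect_le_expect (fun y _ => ?_)
  have : GG X V x y = ((W.card : ℝ) / V.card) * GG X W x y + (((V \ W).card : ℝ) / V.card) * GG X (V \ W) x y := by
    unfold GG
    exact expect_split V W hW _ hWn hU
  rw [this]
  set p := (W.card : ℝ) / V.card
  set p' := ((V \ W).card : ℝ) / V.card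
  set g := GG X W x y
  set h := GG X (V \ W) x y
  have e : p' = 1 - p := by linarith
  rw [e] at hp' ⊢
  nlinarith [mul_nonneg (mul_nonneg hp hp') (sq_nonneg (g - h))]

/-- numerical core: Bernoulli -/
lemma bern_core (q : ℕ) (hq : 1 ≤ q) (A B p : ℝ) (hA : 0 < A) (hB : 0 ≤ B) (hp : 0 ≤ p)
    (h : B ^ q * p ≤ A ^ q) : p * B ≤ A * (p + (1 - p) / q) := by
  have hq' : (0:ℝ) < q := by exact_mod_cast (by omega : 0 < q)
  set b := B / A - 1 with hb
  have hb1 : -2 ≤ b := by
    have : 0 ≤ B / A := by positivity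
    linarith
  have hbern := one_add_mul_le_pow hb1 q
  have hBA : (1 + b) = B / A := by rw [hb]; ring
  rw [hBA, div_pow] at hbern
  have h1 : (B ^ q / A ^ q) * p ≤ 1 := by
    rw [div_mul_eq_mul_div, div_le_one (by positivity)]; exact h
  have h2 : (1 + q * b) * p ≤ 1 := (mul_le_mul_of_nonneg_right hbern hp).trans h1
  have h3 : b * p ≤ (1 - p) / q := by
    rw [le_div_iff₀ hq']; nlinarith
  have h4 : B = A * (1 + b) := by rw [hBA]; field_simp
  rw [h4]
  have : p * (A * (1 + b)) = A * (p + b * p) := by ring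
  rw [this]
  exact mul_le_mul_of_nonneg_left (by linarith) hA.le

lemma F2 (X : α → ι → ℝ) (V : Finset α) (q : ℕ) (hq : 1 ≤ q) (e : ℝ) (he : 0 < e)
    (hmax : ∀ W ⊆ V, W.Nonempty → (MM X W + e) ^ q * W.card ≤ (MM X V + e) ^ q * V.card)
    (W : Finset α) (hW : W ⊆ V) (hWn : W.Nonempty) :
    (1 - 1 / (q:ℝ)) * (MM X V + e) ≤ MM X W + e := by
  have hq' : (0:ℝ) < q := by exact_mod_cast (by omega : 0 < q)
  have hV : V.Nonempty := hWn.mono hW
  have hVc : (0:ℝ) < V.card := by exact_mod_cast hV.card_pos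
  have hWc : (0:ℝ) < W.card := by exact_mod_cast hWn.card_pos
  have hA : 0 < MM X V + e := by have := MM_nonneg X V; linarith
  rcases (V \ W).eq_empty_or_nonempty with h0 | hU
  · have : V = W := Subset.antisymm (sdiff_eq_empty_iff_subset.1 h0) hW
    rw [← this]
    have : 0 ≤ 1 / (q:ℝ) := by positivity
    nlinarith
  · have hc := MM_convex X V W hW hWn hU
    have hf := frac_add V W hW hWn
    set p := (W.card : ℝ) / V.card with hp
    set p' := ((V \ W).card : ℝ) / V.card with hp'
    have hp0 : 0 < p := by positivity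
    have hp'0 : 0 ≤ p' := by positivity
    have h1 := hmax (V \ W) sdiff_subset hU
    have h2 : (MM X (V \ W) + e) ^ q * p' ≤ (MM X V + e) ^ q := by
      rw [hp', mul_div_assoc', div_le_iff₀ hVc]; exact h1
    have h3 := bern_core q hq (MM X V + e) (MM X (V \ W) + e) p' hA
      (by have := MM_nonneg X (V \ W); linarith) hp'0 h2
    have e1 : 1 - p' = p := by linarith
    rw [e1] at h3
    have h4 : MM X V + e ≤ p * (MM X W + e) + p' * (MM X (V \ W) + e) := by
      nlinarith
    have h5 : p * ((1 - 1 / (q:ℝ)) * (MM X V + e)) ≤ p * (MM X W + e) := by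
      have : (MM X V + e) * (p' + p / q) = (MM X V + e) * (1 - p + p * (1 / q)) := by
        have : p' = 1 - p := by linarith
        rw [this]; ring
      rw [this] at h3
      nlinarith
    exact le_of_mul_le_mul_left h5 hp0

lemma F3 (X : α → ι → ℝ) (V : Finset α) (hV : V.Nonempty) (q : ℕ) (hq : 1 ≤ q) (a : ℝ) (ha : 0 < a)
    (hmax : ∀ W ⊆ V, W.Nonempty → (SS X W + a) ^ q * W.card ≤ (SS X V + a) ^ q * V.card)
    (z : ι → ℝ) (hz : 𝔼 x, z x ^ 2 ≤ 1) :
    (𝔼 c ∈ V, |𝔼 x, z x * (X c x - mn X V x)|) ^ 2 ≤ (SS X V + a) / q := by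
  have hq' : (0:ℝ) < q := by exact_mod_cast (by omega : 0 < q)
  have hs : 0 < SS X V + a := by have := SS_nonneg X V; linarith
  have hVc : (0:ℝ) < V.card := by exact_mod_cast hV.card_pos
  set g : α → ℝ := fun c => 𝔼 x, z x * (X c x - mn X V x) with hg
  have hg0 : 𝔼 c ∈ V, g c = 0 := by
    simp only [hg]
    rw [expect_comm]
    refine expect_eq_zero (fun x _ => ?_)
    rw [← mul_expect, expect_sub_distrib, expect_const hV]
    unfold mn; ring
  have hg0' : ∑ c ∈ V, g c = 0 := by
    rw [expect_eq_sum_div_card] at hg0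
    rcases div_eq_zero_iff.1 hg0 with h | h
    · exact h
    · exact absurd h hVc.ne'
  set P := V.filter (fun c => 0 < g c) with hP
  have hPV : P ⊆ V := filter_subset _ _
  have hUeq : V \ P = V.filter (fun c => ¬ 0 < g c) := by
    ext c; simp only [hP, mem_sdiff, mem_filter, not_and]; tauto
  have habs : ∑ c ∈ V, |g c| = 2 * ∑ c ∈ P, g c := by
    rw [← sum_sdiff hPV] at hg0' ⊢
    have h1 : ∑ c ∈ V \ P, |g c| = - ∑ c ∈ V \ P, g c := by
      rw [← sum_neg_distrib]
      refine sum_congr rfl (fun c hc => ?_)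
      rw [hUeq, mem_filter] at hc
      exact abs_of_nonpos (not_lt.1 hc.2)
    have h2 : ∑ c ∈ P, |g c| = ∑ c ∈ P, g c := by
      refine sum_congr rfl (fun c hc => ?_)
      rw [hP, mem_filter] at hc
      exact abs_of_pos hc.2
    rw [h1, h2]; linarith
  have hmain : 𝔼 c ∈ V, |g c| = 2 * ((∑ c ∈ P, g c) / V.card) := by
    rw [expect_eq_sum_div_card, habs]; ring
  change (𝔼 c ∈ V, |g c|) ^ 2 ≤ _
  rw [hmain]
  rcases P.eq_empty_or_nonempty with hP0 | hPn
  · rw [hP0]; simp only [sum_empty, zero_div, mul_zero]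
    rw [zero_pow (by norm_num)]; positivity
  rcases (V \ P).eq_empty_or_nonempty with hU0 | hUn
  · have hVP : V = P := Subset.antisymm (sdiff_eq_empty_iff_subset.1 hU0) hPV
    rw [← hVP, hg0']; simp only [zero_div, mul_zero]
    rw [zero_pow (by norm_num)]; positivity
  have hPc : (0:ℝ) < P.card := by exact_mod_cast hPn.card_pos
  have hUc : (0:ℝ) < (V \ P).card := by exact_mod_cast hUn.card_pos
  have hf := frac_add V P hPV hPn
  set p := (P.card : ℝ) / V.card with hp
  set p' := ((V \ P).card : ℝ) / V.card with hp'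
  have hp0 : 0 < p := by positivity
  have hp'0 : 0 < p' := by positivity
  have hmn : ∀ x, mn X V x = p * mn X P x + p' * mn X (V \ P) x := by
    intro x
    unfold mn
    exact expect_split V P hPV _ hPn hUn
  set D := 𝔼 x, (mn X P x - mn X (V \ P) x) ^ 2 with hD
  -- identity for SS
  have hSS : SS X V + p * p' * D = p * SS X P + p' * SS X (V \ P) := by
    unfold SS
    rw [hD, mul_expect, mul_expect, mul_expect, ← expect_add_distrib, ← expect_add_distrib]
    refine expect_congr rfl (fun x _ => ?_)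
    rw [hmn x]
    have e1 : p' = 1 - p := by linarith
    rw [e1]; ring
  have hmP := hmax P hPV hPn
  have hmU := hmax (V \ P) sdiff_subset hUn
  have hmP' : (SS X P + a) ^ q * p ≤ (SS X V + a) ^ q := by
    rw [hp, mul_div_assoc', div_le_iff₀ hVc]; exact hmP
  have hmU' : (SS X (V \ P) + a) ^ q * p' ≤ (SS X V + a) ^ q := by
    rw [hp', mul_div_assoc', div_le_iff₀ hVc]; exact hmU
  have b1 := bern_core q hq _ _ p hs (by have := SS_nonneg X P; linarith) hp0.le hmP'
  have b2 := bern_core q hq _ _ p' hs (by have := SS_nonneg X (V \ P); linarith) hp'0.le hmU'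
  have hppD : p * p' * D ≤ (SS X V + a) / q := by
    have e1 : p' = 1 - p := by linarith
    have e2 : (SS X V + a) * (p + (1 - p) / q) + (SS X V + a) * (p' + (1 - p') / q)
        = (SS X V + a) + (SS X V + a) / q := by
      rw [e1]; field_simp; ring
    have e3 : p * (SS X P + a) + p' * (SS X (V \ P) + a) = SS X V + p * p' * D + a := by
      rw [hSS]
      have : p * a + p' * a = a := by rw [← add_mul, hf, one_mul]
      linarith
    linarith
  -- compute the sum over P
  have hsum : (∑ c ∈ P, g c) / V.card = p * p' * (𝔼 x, z x * (mn X P x - mn X (V \ P) x)) := by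
    have hgen : ∀ s v c : ℝ, 0 < v → 0 < c → s / v = c / v * (s / c) := by
      intro s v c hv hc; field_simp
    have h1 : (∑ c ∈ P, g c) / V.card = p * 𝔼 c ∈ P, g c := by
      rw [expect_eq_sum_div_card]
      exact hgen _ _ _ hVc hPc
    rw [h1]
    simp only [hg]
    rw [expect_comm, mul_expect, mul_expect]
    refine expect_congr rfl (fun x _ => ?_)
    rw [← mul_expect, expect_sub_distrib, expect_const hPn]
    have h2 : 𝔼 i ∈ P, X i x = mn X P x := rfl
    rw [h2, hmn x]
    have e1 : p' = 1 - p := by linarith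
    rw [e1]; ring
  rw [hsum]
  have hcs : (𝔼 x, z x * (mn X P x - mn X (V \ P) x)) ^ 2 ≤ D := by
    refine (expect_mul_sq_le_sq_mul_sq univ z _).trans ?_
    have hD0 : 0 ≤ D := expect_nonneg (fun _ _ => sq_nonneg _)
    calc (𝔼 i, z i ^ 2) * 𝔼 i, (mn X P i - mn X (V \ P) i) ^ 2 ≤ 1 * D :=
          mul_le_mul_of_nonneg_right hz hD0
      _ = D := one_mul _
  have h4pp : 4 * (p * p') ≤ 1 := by
    have e1 : p' = 1 - p := by linarith
    rw [e1]; nlinarith [sq_nonneg (2 * p - 1)]
  have hpp0 : 0 < p * p' := mul_pos hp0 hp'0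
  set I := 𝔼 x, z x * (mn X P x - mn X (V \ P) x)
  have hD0 : 0 ≤ D := expect_nonneg (fun _ _ => sq_nonneg _)
  calc (2 * (p * p' * I)) ^ 2 = (4 * (p * p')) * (p * p') * I ^ 2 := by ring
    _ ≤ (4 * (p * p')) * (p * p') * D := by
        apply mul_le_mul_of_nonneg_left hcs
        exact mul_nonneg (mul_nonneg (by norm_num) hpp0.le) hpp0.le
    _ ≤ 1 * (p * p') * D := by
        apply mul_le_mul_of_nonneg_right _ hD0
        apply mul_le_mul_of_nonneg_right h4pp hpp0.le
    _ = p * p' * D := by ring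
    _ ≤ _ := hppD

/-- Level 1 -/
lemma level1 (X : α → ι → ℝ) (hX : Sg X) (C : Finset α) (hC : C.Nonempty) (q : ℕ) (e : ℝ) (he : 0 < e) (he1 : e ≤ 1) :
    ∃ V ⊆ C, V.Nonempty ∧ (∀ W ⊆ V, W.Nonempty → (MM X W + e) ^ q * W.card ≤ (MM X V + e) ^ q * V.card)
      ∧ e ^ q * C.card ≤ 2 ^ q * V.card := by
  obtain ⟨V, hVm, hVmax⟩ := exists_max_image (C.powerset.filter (fun W => W.Nonempty))
    (fun W => (MM X W + e) ^ q * W.card) ⟨C, by simp [hC]⟩
  rw [mem_filter, mem_powerset] at hVm
  refine ⟨V, hVm.1, hVm.2, ?_, ?_⟩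
  · intro W hW hWn
    exact hVmax W (by rw [mem_filter, mem_powerset]; exact ⟨hW.trans hVm.1, hWn⟩)
  · have h1 := hVmax C (by rw [mem_filter, mem_powerset]; exact ⟨Subset.refl _, hC⟩)
    have h2 : e ^ q * (C.card : ℝ) ≤ (MM X C + e) ^ q * C.card := by
      apply mul_le_mul_of_nonneg_right _ (by positivity)
      apply pow_le_pow_left₀ he.le
      have := MM_nonneg X C; linarith
    have h3 : (MM X V + e) ^ q * (V.card : ℝ) ≤ 2 ^ q * V.card := by
      apply mul_le_mul_of_nonneg_right _ (by positivity)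
      apply pow_le_pow_left₀ (by have := MM_nonneg X V; linarith)
      have := MM_le_one hX V; linarith
    exact h2.trans (h1.trans h3)

/-- Level 2 -/
lemma level2 (X : α → ι → ℝ) (V : Finset α) (hV : V.Nonempty) (q q1 : ℕ) (hqq : q1 ≤ q) (e a : ℝ)
    (he : 0 < e) (ha : 0 < a) (haV : a ^ 2 = MM X V + e)
    (hmax : ∀ W ⊆ V, W.Nonempty → (MM X W + e) ^ q * W.card ≤ (MM X V + e) ^ q * V.card) :
    ∃ V' ⊆ V, V'.Nonempty ∧ (∀ W ⊆ V', W.Nonempty → (SS X W + a) ^ q1 * W.card ≤ (SS X V' + a) ^ q1 * V'.card)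
      ∧ (V.card : ℝ) ≤ 4 ^ q1 * V'.card := by
  obtain ⟨V', hVm, hVmax⟩ := exists_max_image (V.powerset.filter (fun W => W.Nonempty))
    (fun W => (SS X W + a) ^ q1 * W.card) ⟨V, by simp [hV]⟩
  rw [mem_filter, mem_powerset] at hVm
  refine ⟨V', hVm.1, hVm.2, ?_, ?_⟩
  · intro W hW hWn
    exact hVmax W (by rw [mem_filter, mem_powerset]; exact ⟨hW.trans hVm.1, hWn⟩)
  · have h1 := hVmax V (by rw [mem_filter, mem_powerset]; exact ⟨Subset.refl _, hV⟩)
    have hc : (0:ℝ) < V'.card := by exact_mod_cast hVm.2.card_pos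
    set r := (V.card : ℝ) / V'.card with hr
    set y := SS X V' / a with hy
    have hy0 : 0 ≤ y := by have := SS_nonneg X V'; positivity
    have hr1 : 0 ≤ r := by positivity
    -- (1+y)^q1 ≥ r
    have h2 : r ≤ (1 + y) ^ q1 := by
      have h3 : a ^ q1 * (V.card : ℝ) ≤ (SS X V' + a) ^ q1 * V'.card := by
        refine le_trans ?_ h1
        apply mul_le_mul_of_nonneg_right _ (by positivity)
        apply pow_le_pow_left₀ ha.le
        have := SS_nonneg X V; linarith
      have h4 : (SS X V' + a) = a * (1 + y) := by rw [hy]; field_simp; ring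
      rw [h4, mul_pow] at h3
      have h5 : a ^ q1 * (V.card : ℝ) ≤ a ^ q1 * ((1 + y) ^ q1 * V'.card) := by linarith
      have h6 := le_of_mul_le_mul_left h5 (by positivity)
      rw [hr, div_le_iff₀ hc]; exact h6
    -- y^(2q) ≤ r
    have h7 : y ^ (2 * q) ≤ r := by
      have h8 := hmax V' hVm.1 hVm.2
      rw [← haV] at h8
      have h9 : (y ^ 2) ≤ (MM X V' + e) / a ^ 2 := by
        rw [hy, div_pow]
        apply div_le_div_of_nonneg_right _ (by positivity)
        have := SS_sq_le X V'; linarith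
      have h10 : y ^ (2 * q) ≤ (MM X V' + e) ^ q / (a ^ 2) ^ q := by
        rw [pow_mul, ← div_pow]
        exact pow_le_pow_left₀ (by positivity) h9 q
      refine h10.trans ?_
      rw [hr, div_le_div_iff₀ (by positivity) hc]
      linarith
    have h11 : r ≤ 4 ^ q1 := by
      rcases le_total y 1 with hy1 | hy1
      · refine h2.trans ?_
        apply pow_le_pow_left₀ (by linarith)
        linarith
      · by_cases hr0 : r = 0
        · rw [hr0]; positivity
        have hrpos : 0 < r := lt_of_le_of_ne hr1 (Ne.symm hr0)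
        have h12 : (1 + y) ^ q1 ≤ (2 * y) ^ q1 := by
          apply pow_le_pow_left₀ (by linarith); linarith
        have h13 : r ^ 2 ≤ 4 ^ q1 * r := by
          calc r ^ 2 ≤ ((2 * y) ^ q1) ^ 2 := pow_le_pow_left₀ hr1 (h2.trans h12) 2
            _ = 4 ^ q1 * y ^ (2 * q1) := by
                rw [mul_pow, mul_pow, ← pow_mul, ← pow_mul]
                have : (2:ℝ) ^ (q1 * 2) = 4 ^ q1 := by rw [mul_comm, pow_mul]; norm_num
                rw [this, mul_comm q1 2]
            _ ≤ 4 ^ q1 * y ^ (2 * q) := by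
                apply mul_le_mul_of_nonneg_left _ (by positivity)
                exact pow_le_pow_right₀ hy1 (by omega)
            _ ≤ 4 ^ q1 * r := by
                apply mul_le_mul_of_nonneg_left h7 (by positivity)
        rw [sq] at h13
        exact le_of_mul_le_mul_right h13 hrpos
    rw [hr, div_le_iff₀ hc] at h11
    exact h11

end Pool.Agent.H380LD
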