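import Pool.Agent.Helper380.LD.Basic
set_option autoImplicit false
set_option linter.unusedSectionVars false
open Finset
open scoped BigOperators

namespace Pool.Agent.H380LD

variable {α ι : Type} [Fintype ι] [Nonempty ι] [DecidableEq α]

/-- window probability -/
noncomputable def wp (X : α → ι → ℝ) (V : Finset α) (t : ℝ) : ℝ :=
  𝔼 c ∈ V, 𝔼 d ∈ V, (if t ≤ rho X c d ∧ rho X c d < 5/4 * t then (1:ℝ) else 0)

lemma ptw (A r : ℝ) (hA : 0 < A) (s I : ℕ) (hI : r < A * (5/4) ^ I) :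
    (max r 0) ^ s ≤ A ^ s + ∑ i ∈ range I, (A * (5/4) ^ (i+1)) ^ s *
      (if A * (5/4) ^ i ≤ r ∧ r < 5/4 * (A * (5/4) ^ i) then (1:ℝ) else 0) := by
  have hnn : ∀ i ∈ range I, (0:ℝ) ≤ (A * (5/4) ^ (i+1)) ^ s *
      (if A * (5/4) ^ i ≤ r ∧ r < 5/4 * (A * (5/4) ^ i) then (1:ℝ) else 0) := by
    intro i _
    apply mul_nonneg (by positivity)
    split_ifs <;> norm_num
  rcases le_or_gt r A with h | h
  · have h1 : (max r 0) ^ s ≤ A ^ s := pow_le_pow_left₀ (le_max_right _ _) (max_le h hA.le) s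
    have h2 := sum_nonneg hnn
    linarith
  · have hex : ∃ i, r < A * (5/4) ^ (i+1) := ⟨I, hI.trans_le (by
      apply mul_le_mul_of_nonneg_left _ hA.le
      exact pow_le_pow_right₀ (by norm_num) (by omega))⟩
    classical
    set i := Nat.find hex with hi
    have h1 : r < A * (5/4) ^ (i+1) := Nat.find_spec hex
    have h2 : A * (5/4) ^ i ≤ r := by
      rcases Nat.eq_zero_or_pos i with h0 | hpos
      · rw [h0]; simp only [pow_zero, mul_one]; exact h.le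
      · have h3 := Nat.find_min hex (m := i - 1) (by omega)
        rw [not_lt] at h3
        have : i - 1 + 1 = i := by omega
        rwa [this] at h3
    have hiI : i < I := by
      by_contra hc
      have : A * (5/4) ^ I ≤ A * (5/4) ^ i := by
        apply mul_le_mul_of_nonneg_left _ hA.le
        exact pow_le_pow_right₀ (by norm_num) (by omega)
      linarith
    have h3 : (max r 0) ^ s ≤ (A * (5/4) ^ (i+1)) ^ s *
      (if A * (5/4) ^ i ≤ r ∧ r < 5/4 * (A * (5/4) ^ i) then (1:ℝ) else 0) := by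
      have hr0 : 0 ≤ r := by linarith
      rw [if_pos ⟨h2, by rw [pow_succ] at h1; linarith⟩, mul_one, max_eq_left hr0]
      exact pow_le_pow_left₀ hr0 h1.le s
    have h4 := single_le_sum hnn (mem_range.2 hiI)
    have h5 : 0 ≤ A ^ s := by positivity
    linarith

lemma tails (X : α → ι → ℝ) (hX : Sg X) (V : Finset α) (A : ℝ) (hA : 0 < A) (q s : ℕ)
    (Θ : ℝ) (hΘ : 0 ≤ Θ) (hwin : ∀ t, 0 < t → wp X V t ≤ Θ * (A / (2 * t)) ^ (2 * q))
    (hs : s + 1 ≤ 2 * q) (hΘ2 : 5 * Θ * (5/4) ^ s ≤ 4 ^ q) (hV : V.Nonempty) :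
    𝔼 c ∈ V, 𝔼 d ∈ V, (max (rho X c d) 0) ^ s ≤ 2 * A ^ s := by
  obtain ⟨I, hI⟩ := pow_unbounded_of_one_lt (1 / A) (by norm_num : (1:ℝ) < 5/4)
  have hI' : 1 < A * (5/4) ^ I := by
    rw [div_lt_iff₀ hA] at hI; linarith
  have h1 : ∀ c d, (max (rho X c d) 0) ^ s ≤ A ^ s + ∑ i ∈ range I, (A * (5/4) ^ (i+1)) ^ s *
      (if A * (5/4) ^ i ≤ rho X c d ∧ rho X c d < 5/4 * (A * (5/4) ^ i) then (1:ℝ) else 0) := by
    intro c d
    apply ptw A _ hA s I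
    have := abs_rho_le hX c d
    have := le_abs_self (rho X c d)
    linarith
  have h2 : 𝔼 c ∈ V, 𝔼 d ∈ V, (max (rho X c d) 0) ^ s
      ≤ A ^ s + ∑ i ∈ range I, (A * (5/4) ^ (i+1)) ^ s * wp X V (A * (5/4) ^ i) := by
    refine (expect_le_expect (fun c _ => expect_le_expect (fun d _ => h1 c d))).trans ?_
    simp_rw [expect_add_distrib, expect_const hV, expect_sum_comm, ← mul_expect]
    rfl
  refine h2.trans ?_
  have h3 : ∀ i ∈ range I, (A * (5/4) ^ (i+1)) ^ s * wp X V (A * (5/4) ^ i)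
      ≤ A ^ s * (Θ * (5/4) ^ s / 4 ^ q) * (4/5) ^ i := by
    intro i _
    have h4 := hwin (A * (5/4) ^ i) (by positivity)
    have h5 : (A / (2 * (A * (5/4) ^ i))) ^ (2 * q) = (1 / 4 ^ q) * ((4/5) ^ (2 * q)) ^ i := by
      have : A / (2 * (A * (5/4) ^ i)) = (1/2) * (4/5) ^ i := by
        have : (4/5:ℝ) ^ i = 1 / (5/4) ^ i := by
          rw [← one_div_pow]; norm_num
        rw [this]; field_simp
      rw [this, mul_pow, pow_mul]
      congr 1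
      · rw [show ((1:ℝ)/2)^2 = 1/4 by norm_num, one_div_pow]
      · rw [← pow_mul, ← pow_mul, mul_comm]
    rw [h5] at h4
    have h6 : (A * (5/4) ^ (i+1)) ^ s = A ^ s * (5/4) ^ s * ((5/4) ^ s) ^ i := by
      rw [mul_pow, pow_succ, mul_pow, ← pow_mul, ← pow_mul, mul_comm s i]; ring
    calc (A * (5/4) ^ (i+1)) ^ s * wp X V (A * (5/4) ^ i)
        ≤ (A * (5/4) ^ (i+1)) ^ s * (Θ * ((1 / 4 ^ q) * ((4/5) ^ (2 * q)) ^ i)) := by
          apply mul_le_mul_of_nonneg_left h4; positivity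
      _ = A ^ s * (Θ * (5/4) ^ s / 4 ^ q) * (((5/4) ^ s) * ((4/5) ^ (2 * q))) ^ i := by
          rw [h6, mul_pow ((5/4:ℝ) ^ s) ((4/5) ^ (2 * q)) i]; ring
      _ ≤ A ^ s * (Θ * (5/4) ^ s / 4 ^ q) * (4/5) ^ i := by
          apply mul_le_mul_of_nonneg_left _ (by positivity)
          apply pow_le_pow_left₀ (by positivity)
          have h7 : (4/5:ℝ) ^ (2 * q) ≤ (4/5) ^ (s + 1) :=
            pow_le_pow_of_le_one (by norm_num) (by norm_num) hs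
          calc (5/4:ℝ) ^ s * (4/5) ^ (2 * q) ≤ (5/4) ^ s * (4/5) ^ (s + 1) :=
                mul_le_mul_of_nonneg_left h7 (by positivity)
            _ = 4/5 := by
                rw [pow_succ, ← mul_assoc, ← mul_pow]; norm_num
  have h8 : ∑ i ∈ range I, (4/5:ℝ) ^ i ≤ 5 := by
    rw [geom_sum_eq (by norm_num)]
    have : (0:ℝ) ≤ (4/5) ^ I := by positivity
    rw [show ((4/5:ℝ) ^ I - 1) / (4/5 - 1) = 5 * (1 - (4/5) ^ I) by field_simp; ring]
    linarith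
  have h9 : ∑ i ∈ range I, (A * (5/4) ^ (i+1)) ^ s * wp X V (A * (5/4) ^ i)
      ≤ A ^ s * (Θ * (5/4) ^ s / 4 ^ q) * 5 := by
    refine (sum_le_sum h3).trans ?_
    rw [← mul_sum]
    exact mul_le_mul_of_nonneg_left h8 (by positivity)
  have h10 : (Θ * (5/4) ^ s / 4 ^ q) * 5 ≤ 1 := by
    rw [div_mul_eq_mul_div, div_le_one (by positivity)]; linarith
  have h11 : A ^ s * (Θ * (5/4) ^ s / 4 ^ q) * 5 ≤ A ^ s := by
    have : 0 ≤ A ^ s := by positivity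
    nlinarith
  linarith

lemma even_mom (X : α → ι → ℝ) (V : Finset α) (hV : V.Nonempty) (A : ℝ) (hA : 0 < A) (j : ℕ)
    (h : 𝔼 c ∈ V, 𝔼 d ∈ V, (max (rho X c d) 0) ^ (2 * j + 1) ≤ 2 * A ^ (2 * j + 1)) :
    𝔼 c ∈ V, 𝔼 d ∈ V, (rho X c d) ^ (2 * j) ≤ 5 * A ^ (2 * j) := by
  have hodd : Odd (2 * j + 1) := ⟨j, rfl⟩
  have h1 : ∀ r : ℝ, r ^ (2 * j) ≤ A ^ (2 * j) + (2 * (max r 0) ^ (2 * j + 1) - r ^ (2 * j + 1)) / A := by
    intro r
    have h2 : 2 * (max r 0) ^ (2 * j + 1) - r ^ (2 * j + 1) = |r| ^ (2 * j + 1) := by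
      rcases le_total 0 r with hr | hr
      · rw [max_eq_left hr, abs_of_nonneg hr]; ring
      · rw [max_eq_right hr, abs_of_nonpos hr, zero_pow (by omega), hodd.neg_pow]; ring
    rw [h2]
    have h3 : r ^ (2 * j) = |r| ^ (2 * j) := by rw [pow_mul, pow_mul, sq_abs]
    rw [h3]
    rcases le_or_gt |r| A with h4 | h4
    · have : |r| ^ (2 * j) ≤ A ^ (2 * j) := pow_le_pow_left₀ (abs_nonneg r) h4 _
      have : 0 ≤ |r| ^ (2 * j + 1) / A := by positivity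
      linarith
    · have h5 : |r| ^ (2 * j) ≤ |r| ^ (2 * j + 1) / A := by
        rw [le_div_iff₀ hA, pow_succ]
        exact mul_le_mul_of_nonneg_left h4.le (by positivity)
      have : 0 ≤ A ^ (2 * j) := by positivity
      linarith
  have h2 : 𝔼 c ∈ V, 𝔼 d ∈ V, (rho X c d) ^ (2 * j)
      ≤ A ^ (2 * j) + (2 * (𝔼 c ∈ V, 𝔼 d ∈ V, (max (rho X c d) 0) ^ (2 * j + 1))
          - 𝔼 c ∈ V, 𝔼 d ∈ V, (rho X c d) ^ (2 * j + 1)) / A := by
    refine (expect_le_expect (fun c _ => expect_le_expect (fun d _ => h1 (rho X c d)))).trans ?_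
    simp_rw [expect_add_distrib, expect_const hV, ← expect_div, expect_sub_distrib, ← mul_expect]
    exact le_rfl
  have h3 := mom_nonneg X V (2 * j + 1)
  refine h2.trans ?_
  have h4 : (2 * (𝔼 c ∈ V, 𝔼 d ∈ V, (max (rho X c d) 0) ^ (2 * j + 1))
          - 𝔼 c ∈ V, 𝔼 d ∈ V, (rho X c d) ^ (2 * j + 1)) / A ≤ 4 * A ^ (2 * j) := by
    rw [div_le_iff₀ hA]
    have : 4 * A ^ (2 * j) * A = 2 * (2 * A ^ (2 * j + 1)) := by ring
    rw [this]; linarith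
  linarith

omit [Nonempty ι] [DecidableEq α] in
/-- moments of linear functionals -/
lemma lin_mom (X : α → ι → ℝ) (V : Finset α) (z : ι → ℝ) (j : ℕ) :
    (𝔼 c ∈ V, (𝔼 x, z x * X c x) ^ j) ^ 2 ≤ (𝔼 x, z x ^ 2) ^ j * 𝔼 c ∈ V, 𝔼 d ∈ V, (rho X c d) ^ j := by
  have h1 : 𝔼 c ∈ V, (𝔼 x, z x * X c x) ^ j
      = 𝔼 p ∈ Fintype.piFinset (fun _ : Fin j => (univ : Finset ι)),
          (∏ i, z (p i)) * (𝔼 c ∈ V, ∏ i, X c (p i)) := by
    simp_rw [expect_pow, prod_mul_distrib]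
    rw [expect_comm]
    refine expect_congr rfl (fun p _ => ?_)
    rw [mul_expect]
  rw [h1, mom_eq, expect_pow univ (fun x => z x ^ 2) j]
  have h2 := expect_mul_sq_le_sq_mul_sq (Fintype.piFinset (fun _ : Fin j => (univ : Finset ι)))
    (fun p => ∏ i, z (p i)) (fun p => 𝔼 c ∈ V, ∏ i, X c (p i))
  have h3 : 𝔼 p ∈ Fintype.piFinset (fun _ : Fin j => (univ : Finset ι)), (∏ i, z (p i)) ^ 2
      = 𝔼 p ∈ Fintype.piFinset (fun _ : Fin j => (univ : Finset ι)), ∏ i, z (p i) ^ 2 := by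
    refine expect_congr rfl (fun p _ => ?_)
    rw [prod_pow]
  rw [← h3]
  exact h2

lemma variance (X : α → ι → ℝ) (V : Finset α) (hV : V.Nonempty) (z : ι → ℝ) (hz : 𝔼 x, z x ^ 2 ≤ 1)
    (A B e : ℝ) (hA : 0 < A) (hB : 0 < B) (he : 0 ≤ e)
    (h4 : 𝔼 c ∈ V, 𝔼 d ∈ V, (rho X c d) ^ 4 ≤ 5 * A ^ 4)
    (h1 : (𝔼 c ∈ V, |𝔼 x, z x * (X c x - mn X V x)|) ^ 2 ≤ e ^ 2) :
    𝔼 c ∈ V, (𝔼 x, z x * (X c x - mn X V x)) ^ 2 ≤ B * e + 48 * A ^ 2 / B ^ 2 := by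
  set g : α → ℝ := fun c => 𝔼 x, z x * (X c x - mn X V x) with hg
  have hgE : 𝔼 c ∈ V, |g c| ≤ e := by
    have h0 : 0 ≤ 𝔼 c ∈ V, |g c| := expect_nonneg (fun _ _ => abs_nonneg _)
    exact (abs_le_of_sq_le_sq' h1 he).2
  -- fourth moment of uncentred
  have hu : 𝔼 c ∈ V, (𝔼 x, z x * X c x) ^ 4 ≤ 3 * A ^ 2 := by
    have h5 := lin_mom X V z 4
    have h6 : (𝔼 x, z x ^ 2) ^ 4 ≤ 1 := pow_le_one₀ (expect_nonneg (fun _ _ => sq_nonneg _)) hz
    have h7 : 0 ≤ 𝔼 c ∈ V, 𝔼 d ∈ V, (rho X c d) ^ 4 := mom_nonneg X V 4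
    have h8 : (𝔼 c ∈ V, (𝔼 x, z x * X c x) ^ 4) ^ 2 ≤ (3 * A ^ 2) ^ 2 := by
      calc _ ≤ (𝔼 x, z x ^ 2) ^ 4 * 𝔼 c ∈ V, 𝔼 d ∈ V, (rho X c d) ^ 4 := h5
        _ ≤ 1 * (5 * A ^ 4) := mul_le_mul h6 h4 h7 (by norm_num)
        _ ≤ (3 * A ^ 2) ^ 2 := by nlinarith [pow_pos hA 4]
    exact (abs_le_of_sq_le_sq' h8 (by positivity)).2
  set u : α → ℝ := fun c => 𝔼 x, z x * X c x with hudef
  set v : ℝ := 𝔼 c ∈ V, u c with hv
  have hgu : ∀ c, g c = u c - v := by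
    intro c
    have : v = 𝔼 x, z x * mn X V x := by
      rw [hv]
      simp only [hudef]
      rw [expect_comm]
      refine expect_congr rfl (fun x _ => ?_)
      rw [← mul_expect]; rfl
    rw [this]
    simp only [hg, hudef]
    rw [← expect_sub_distrib]
    refine expect_congr rfl (fun x _ => ?_)
    ring
  have hv4 : v ^ 4 ≤ 3 * A ^ 2 := by
    have h5 : v ^ 2 ≤ 𝔼 c ∈ V, (u c) ^ 2 := jensen_sq V u
    have h6 : (𝔼 c ∈ V, (u c) ^ 2) ^ 2 ≤ 𝔼 c ∈ V, ((u c) ^ 2) ^ 2 := jensen_sq V _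
    have h7 : v ^ 4 = (v ^ 2) ^ 2 := by ring
    rw [h7]
    refine (pow_le_pow_left₀ (sq_nonneg v) h5 2).trans (h6.trans ?_)
    refine le_trans (le_of_eq ?_) hu
    refine expect_congr rfl (fun c _ => ?_)
    ring
  have hptw : ∀ c ∈ V, g c ^ 2 ≤ B * |g c| + (8 * (u c ^ 4 + v ^ 4)) / B ^ 2 := by
    intro c _
    have h5 : g c ^ 4 ≤ 8 * (u c ^ 4 + v ^ 4) := by
      rw [hgu c]
      nlinarith [sq_nonneg (u c ^ 2 - v ^ 2), sq_nonneg (u c - v), sq_nonneg (u c + v),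
        sq_nonneg ((u c - v) ^ 2), sq_nonneg ((u c + v) ^ 2), mul_nonneg (sq_nonneg (u c - v)) (sq_nonneg (u c + v)),
        sq_nonneg (u c ^ 2 + v ^ 2)]
    rcases le_or_gt |g c| B with h6 | h6
    · have h7 : g c ^ 2 ≤ B * |g c| := by
        rw [← sq_abs, sq]
        exact mul_le_mul_of_nonneg_right h6 (abs_nonneg _)
      have h8 : 0 ≤ (8 * (u c ^ 4 + v ^ 4)) / B ^ 2 := by positivity
      linarith
    · have h7 : g c ^ 2 ≤ g c ^ 4 / B ^ 2 := by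
        rw [le_div_iff₀ (by positivity)]
        have h9 : B ^ 2 ≤ g c ^ 2 := by
          rw [← sq_abs (g c)]
          exact pow_le_pow_left₀ hB.le h6.le 2
        nlinarith [sq_nonneg (g c)]
      have h8 : g c ^ 4 / B ^ 2 ≤ (8 * (u c ^ 4 + v ^ 4)) / B ^ 2 :=
        div_le_div_of_nonneg_right h5 (by positivity)
      have : 0 ≤ B * |g c| := by positivity
      linarith
  have hfin := expect_le_expect hptw
  rw [expect_add_distrib, ← mul_expect, ← expect_div, ← mul_expect, expect_add_distrib, expect_const hV] at hfin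
  refine hfin.trans ?_
  have h9 : B * 𝔼 c ∈ V, |g c| ≤ B * e := mul_le_mul_of_nonneg_left hgE hB.le
  have h10 : 8 * ((𝔼 c ∈ V, u c ^ 4) + v ^ 4) / B ^ 2 ≤ 48 * A ^ 2 / B ^ 2 := by
    apply div_le_div_of_nonneg_right _ (by positivity)
    have : 𝔼 c ∈ V, u c ^ 4 ≤ 3 * A ^ 2 := hu
    linarith
  linarith

end Pool.Agent.H380LD
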