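import Pool.Agent.Helper380.LD.Gen2
import Pool.Agent.Helper380.LD.Pot
import Pool.Agent.Helper380.LD.Tails
import Pool.Agent.Helper651.LDWelch
set_option autoImplicit false
set_option linter.unusedSectionVars false
open Finset
open scoped BigOperators

namespace Pool.Agent.H380LD

lemma Good.mono {α ι : Type} [Fintype ι] [Nonempty ι] {X : α → ι → ℝ} {V V' : Finset α} {k : ℕ} {θ θ' : ℝ}
    (h : Good X V k θ) (hV : V ⊆ V') (hθ : θ ≤ θ') : Good X V' k θ' := by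
  obtain ⟨W, h1, h2, z, h3⟩ := h
  exact ⟨W, h1.trans hV, h2, z, fun c hc => by have := h3 c hc; linarith⟩

/-- statement of the window lemma -/
def WindowStmt : Prop :=
  ∀ {α ι : Type} [DecidableEq α] [Fintype ι] [Nonempty ι] (X : α → ι → ℝ) (_ : Sg X)
    (V : Finset α) (k : ℕ) (_ : 2 ≤ k) (t p b : ℝ) (_ : 0 < t) (_ : 0 < p)
    (_ : p ≤ 𝔼 c ∈ V, 𝔼 d ∈ V, (if t ≤ rho X c d ∧ rho X c d < 5/4 * t then (1:ℝ) else 0))
    (_ : ∀ W ⊆ V, p / 2 * (V.card : ℝ) ≤ W.card → MM X W ≤ b ^ 2)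
    (_ : (2:ℝ) ^ (2*k+1) * b ^ 2 < (kap k / (6 * 2 ^ (2*k+1)) * t) ^ 2), Good X V k 0

variable {α ι : Type} [DecidableEq α] [Fintype ι] [Nonempty ι]

/-- consequence of the window lemma -/
lemma window_tail (hWin : WindowStmt) (X : α → ι → ℝ) (hX : Sg X) (V V' : Finset α) (hVV : V' ⊆ V)
    (hV' : V'.Nonempty) (k : ℕ) (hk : 2 ≤ k) (q q1 : ℕ) (hq : 1 ≤ q) (e a C0 : ℝ) (he : 0 < e) (ha : 0 < a) (hC0 : 0 < C0)
    (haV : a ^ 2 = MM X V + e)
    (hmax : ∀ W ⊆ V, W.Nonempty → (MM X W + e) ^ q * W.card ≤ (MM X V + e) ^ q * V.card)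
    (hcard : (V.card : ℝ) ≤ 4 ^ q1 * V'.card)
    (hC : (2:ℝ) ^ (2*k+1) / C0 ^ 2 < (kap k / (6 * 2 ^ (2*k+1))) ^ 2)
    (hbad : ¬ Good X V' k 0) (t : ℝ) (ht : 0 < t) :
    wp X V' t ≤ (2 * 4 ^ q1) * ((2 * C0 * a) / (2 * t)) ^ (2 * q) := by
  by_contra hcon
  rw [not_le] at hcon
  have hr : (2 * C0 * a) / (2 * t) = C0 * a / t := by field_simp
  rw [hr] at hcon
  set p := wp X V' t with hp
  have hp0 : 0 < p := lt_of_le_of_lt (by positivity) hcon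
  have hc' : (0:ℝ) < V'.card := by exact_mod_cast hV'.card_pos
  refine hbad (hWin X hX V' k hk t p (t / C0) ht hp0 (le_refl _) ?_ ?_)
  · intro W hW hWc
    have hWc0 : (0:ℝ) < W.card := lt_of_lt_of_le (by positivity) hWc
    have hWn : W.Nonempty := by
      rw [← card_pos]; exact_mod_cast hWc0
    have h1 := hmax W (hW.trans hVV) hWn
    rw [← haV] at h1
    have hM0 := MM_nonneg X W
    have h2 : (MM X W) ^ q * W.card ≤ (a ^ 2) ^ q * (4 ^ q1 * (2 / p * W.card)) := by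
      calc (MM X W) ^ q * W.card ≤ (MM X W + e) ^ q * W.card := by
            apply mul_le_mul_of_nonneg_right _ hWc0.le
            exact pow_le_pow_left₀ hM0 (by linarith) q
        _ ≤ (a ^ 2) ^ q * V.card := h1
        _ ≤ (a ^ 2) ^ q * (4 ^ q1 * V'.card) := mul_le_mul_of_nonneg_left hcard (by positivity)
        _ ≤ (a ^ 2) ^ q * (4 ^ q1 * (2 / p * W.card)) := by
            apply mul_le_mul_of_nonneg_left _ (by positivity)
            apply mul_le_mul_of_nonneg_left _ (by positivity)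
            rw [div_mul_eq_mul_div, le_div_iff₀ hp0]
            linarith
    have h3 : (MM X W) ^ q ≤ (a ^ 2) ^ q * (4 ^ q1 * (2 / p)) := by
      have : (a ^ 2) ^ q * (4 ^ q1 * (2 / p * W.card)) = ((a ^ 2) ^ q * (4 ^ q1 * (2 / p))) * W.card := by ring
      rw [this] at h2
      exact le_of_mul_le_mul_right h2 hWc0
    have h4 : (a ^ 2) ^ q * (4 ^ q1 * (2 / p)) ≤ ((t / C0) ^ 2) ^ q := by
      have h5 : 2 * 4 ^ q1 * (C0 * a / t) ^ (2 * q) ≤ p := hcon.le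
      have h6 : (C0 * a / t) ^ (2 * q) * ((t / C0) ^ 2) ^ q = (a ^ 2) ^ q := by
        rw [pow_mul, ← mul_pow]
        congr 1
        field_simp
      have h7 : 0 < ((t / C0) ^ 2) ^ q := by positivity
      have h8 : (a ^ 2) ^ q * (4 ^ q1 * (2 / p)) = (2 * 4 ^ q1 * (C0 * a / t) ^ (2 * q)) * ((t / C0) ^ 2) ^ q / p := by
        rw [← h6]; ring
      rw [h8, div_le_iff₀ hp0]
      have := mul_le_mul_of_nonneg_right h5 h7.le
      linarith
    exact le_of_pow_le_pow_left₀ (by omega) (by positivity) (h3.trans h4)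
  · have h1 : (2:ℝ) ^ (2*k+1) * (t / C0) ^ 2 = ((2:ℝ) ^ (2*k+1) / C0 ^ 2) * t ^ 2 := by
      field_simp
    rw [h1, mul_pow]
    exact mul_lt_mul_of_pos_right hC (by positivity)

/-- the heart of the argument with explicit constants -/
lemma core (hWin : WindowStmt) (X : α → ι → ℝ) (hX : Sg X) (C : Finset α) (hCn : C.Nonempty)
    (k : ℕ) (hk : 2 ≤ k) (q q1 j : ℕ) (e C0 c δ δ2 β ε : ℝ)
    (hε : 0 < ε) (he : 0 < e) (he1 : e ≤ 1) (hC0 : 0 < C0) (hc : 0 < c) (hδ : 0 < δ) (hδ2 : 0 < δ2) (hβ : 0 < β)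
    (hj : 1 ≤ j) (hq1 : 1 ≤ q1) (hqq : q1 ≤ q) (hq100 : 100 ≤ q)
    (hC : (2:ℝ) ^ (2*k+1) / C0 ^ 2 < (kap k / (6 * 2 ^ (2*k+1))) ^ 2)
    (hc1 : c ≤ 1 / 32) (hc2 : 2 ^ (2 * k + 1) * ((2 * k + 1 : ℕ):ℝ) * (4 * c) ≤ δ ^ 2 / 2)
    (hδ1 : 2 ^ (2 * k + 1) * δ ≤ kap k / (2 * k + 1) / 4)
    (hjf : 5 * (8 * C0 ^ 2 / c ^ 2) ^ j < (j.factorial : ℝ))
    (hδ2c : (j:ℝ) * δ2 ^ 2 ≤ c ^ 2)
    (hβ2 : 384 * C0 ^ 2 ≤ δ2 * β ^ 2)
    (hq1β : 12 * β ^ 2 ≤ δ2 ^ 2 * q1)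
    (hs1 : 2 * j + 2 ≤ 2 * q) (hs2 : 5 * (2 * 4 ^ q1) * (5/4:ℝ) ^ (2 * j + 1) ≤ 4 ^ q)
    (hs3 : 5 * (2 * 4 ^ q1) * (5/4:ℝ) ^ 5 ≤ 4 ^ q)
    (he2 : 2 ^ (2 * k + 2) * (100 * e) ≤ (2 * ε / 2 ^ (2 * k + 1)) ^ 2)
    (hbig : 4 * ((2 * k + 1 : ℕ):ℝ) ^ 2 * (4 ^ q1 * 2 ^ q) ≤ e ^ q * C.card) :
    Good X C k (2 * ε) := by
  by_contra hbad
  obtain ⟨V, hVC, hVn, hmaxV, hVcard⟩ := level1 X hX C hCn q e he he1
  have hMV := MM_nonneg X V
  set a : ℝ := Real.sqrt (MM X V + e) with hadef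
  have ha : 0 < a := Real.sqrt_pos.2 (by linarith)
  have haV : a ^ 2 = MM X V + e := Real.sq_sqrt (by linarith)
  obtain ⟨V', hV'V, hV'n, hmaxV', hV'card⟩ := level2 X V hVn q q1 hqq e a he ha haV hmaxV
  have hV'C : V' ⊆ C := hV'V.trans hVC
  have hc' : (0:ℝ) < V'.card := by exact_mod_cast hV'n.card_pos
  have hbad0 : ¬ Good X V' k 0 := fun h => hbad (h.mono hV'C (by linarith))
  have hbad2 : ¬ Good X V' k (2 * ε) := fun h => hbad (h.mono hV'C (le_refl _))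
  -- size of V'
  have hbigV' : 4 * ((2 * k + 1 : ℕ):ℝ) ^ 2 ≤ V'.card := by
    have h1 : 4 * ((2 * k + 1 : ℕ):ℝ) ^ 2 * (4 ^ q1 * 2 ^ q) ≤ (4 ^ q1 * 2 ^ q) * V'.card := by
      refine hbig.trans (hVcard.trans ?_)
      have := mul_le_mul_of_nonneg_left hV'card (by positivity : (0:ℝ) ≤ 2 ^ q)
      linarith
    have h2 : (0:ℝ) < 4 ^ q1 * 2 ^ q := by positivity
    rw [mul_comm] at h1
    exact le_of_mul_le_mul_left h1 h2
  -- MM V' is not tiny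
  have hM'low : 100 * e ≤ MM X V' := by
    by_contra hlt
    rw [not_le] at hlt
    refine hbad2 (generic_small X hX V' hV'n k hbigV' (2 * ε / 2 ^ (2 * k + 1)) (2 * ε) (by positivity) ?_ ?_)
    · rw [mul_div_cancel₀]; positivity
    · refine lt_of_lt_of_le ?_ he2
      exact mul_lt_mul_of_pos_left hlt (by positivity)
  -- a^2/2 ≤ MM V'
  have hM2 : a ^ 2 / 2 ≤ MM X V' := by
    have h1 := F2 X V q (by omega) e he hmaxV V' hV'V hV'n
    rw [← haV] at h1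
    have hq' : (100:ℝ) ≤ q := by exact_mod_cast hq100
    have h2 : 1 / (q:ℝ) ≤ 1 / 100 := by
      apply one_div_le_one_div_of_le (by norm_num) hq'
    nlinarith [sq_nonneg a]
  -- MM V' ≤ (2a)^2
  have hM4 : MM X V' ≤ (2 * a) ^ 2 := by
    have h1 := hmaxV V' hV'V hV'n
    rw [← haV] at h1
    have h2 : (MM X V' + e) ^ q * V'.card ≤ ((a ^ 2) ^ q * 4 ^ q) * V'.card := by
      refine h1.trans ?_
      have h3 : (a ^ 2) ^ q * (V.card : ℝ) ≤ (a ^ 2) ^ q * (4 ^ q1 * V'.card) :=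
        mul_le_mul_of_nonneg_left hV'card (by positivity)
      refine h3.trans ?_
      have h4 : (4:ℝ) ^ q1 ≤ 4 ^ q := pow_le_pow_right₀ (by norm_num) hqq
      have h5 := mul_le_mul_of_nonneg_right h4 hc'.le
      have h6 := mul_le_mul_of_nonneg_left h5 (by positivity : (0:ℝ) ≤ (a ^ 2) ^ q)
      linarith
    have h3 : (MM X V' + e) ^ q ≤ ((2 * a) ^ 2) ^ q := by
      have := le_of_mul_le_mul_right h2 hc'
      rw [← mul_pow] at this
      refine this.trans (le_of_eq ?_)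
      congr 1; ring
    have h4 := le_of_pow_le_pow_left₀ (by omega) (by positivity) h3
    linarith
  have hSS2 : SS X V' ≤ 2 * a := by
    have h1 : SS X V' ^ 2 ≤ (2 * a) ^ 2 := (SS_sq_le X V').trans hM4
    exact (abs_le_of_sq_le_sq' h1 (by positivity)).2
  -- tails
  set A : ℝ := 2 * C0 * a with hA
  have hA0 : 0 < A := by positivity
  have hwin : ∀ t, 0 < t → wp X V' t ≤ (2 * 4 ^ q1) * (A / (2 * t)) ^ (2 * q) := by
    intro t ht
    exact window_tail hWin X hX V V' hV'V hV'n k hk q q1 (by omega) e a C0 he ha hC0 haV hmaxV hV'card hC hbad0 t ht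
  have hΘ : (0:ℝ) ≤ 2 * 4 ^ q1 := by positivity
  have hm4 : 𝔼 c ∈ V', 𝔼 d ∈ V', (rho X c d) ^ 4 ≤ 5 * A ^ 4 := by
    have h1 := tails X hX V' A hA0 q 5 (2 * 4 ^ q1) hΘ hwin (by omega) hs3 hV'n
    exact even_mom X V' hV'n A hA0 2 h1
  have hm2j : 𝔼 c ∈ V', 𝔼 d ∈ V', (rho X c d) ^ (2 * j) ≤ 5 * A ^ (2 * j) := by
    have h1 := tails X hX V' A hA0 q (2 * j + 1) (2 * 4 ^ q1) hΘ hwin (by omega) hs2 hV'n
    exact even_mom X V' hV'n A hA0 j h1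
  -- variance
  have hvar : ∀ z : ι → ℝ, (𝔼 x, z x ^ 2) ≤ 1 →
      𝔼 c ∈ V', (𝔼 x, z x * (X c x - 𝔼 d ∈ V', X d x)) ^ 2 ≤ δ2 * a := by
    intro z hz
    have h1 := F3 X V' hV'n q1 hq1 a ha hmaxV' z hz
    set r : ℝ := Real.sqrt a with hr
    have hr0 : 0 < r := Real.sqrt_pos.2 ha
    have hr2 : r ^ 2 = a := Real.sq_sqrt ha.le
    have hq1' : (0:ℝ) < q1 := by exact_mod_cast (by omega : 0 < q1)
    have h2 : (SS X V' + a) / q1 ≤ (δ2 * r / (2 * β)) ^ 2 := by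
      rw [div_le_iff₀ hq1', div_pow, mul_pow, hr2]
      have h3 : SS X V' + a ≤ 3 * a := by linarith
      refine h3.trans ?_
      have h4 : (2 * β) ^ 2 = 4 * β ^ 2 := by ring
      rw [h4, div_mul_eq_mul_div, le_div_iff₀ (by positivity)]
      have := mul_le_mul_of_nonneg_right hq1β ha.le
      linarith
    have h3 := variance X V' hV'n z hz A (β * r) (δ2 * r / (2 * β)) hA0 (by positivity) (by positivity) hm4 (h1.trans h2)
    refine le_trans h3 ?_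
    have h4 : β * r * (δ2 * r / (2 * β)) = δ2 * a / 2 := by
      rw [← hr2]; field_simp
    have h5 : 48 * A ^ 2 / (β * r) ^ 2 ≤ δ2 * a / 2 := by
      rw [mul_pow β r, hr2, hA, div_le_iff₀ (by positivity)]
      have h6 : 48 * (2 * C0 * a) ^ 2 = (384 * C0 ^ 2) * a ^ 2 / 2 := by ring
      rw [h6]
      have := mul_le_mul_of_nonneg_right hβ2 (by positivity : (0:ℝ) ≤ a ^ 2)
      have h7 : δ2 * a / 2 * (β ^ 2 * a) = (δ2 * β ^ 2) * a ^ 2 / 2 := by ring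
      rw [h7]; linarith
    rw [h4]; linarith
  -- dichotomy
  by_cases hPH : PH X V' ≤ (c * a) ^ 2
  · exact hbad0 (generic_mean X hX V' hV'n k (by omega) hbigV' a c δ ha hc hδ hc1 hc2 hδ1 hPH hM4 hM2)
  · rw [not_le] at hPH
    have hPHeq : (𝔼 x, 𝔼 y, ((𝔼 c ∈ V', X c x * X c y) - (𝔼 c ∈ V', X c x) * (𝔼 c ∈ V', X c y)) ^ 2) = PH X V' := rfl
    have hw := Pool.Agent.H651Welch.welch X V' hV'n (δ2 * a) (by positivity) hvar j (by
      rw [hPHeq]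
      have h1 : (j:ℝ) * (δ2 * a) ^ 2 = ((j:ℝ) * δ2 ^ 2) * a ^ 2 := by ring
      rw [h1]
      have h2 := mul_le_mul_of_nonneg_right hδ2c (by positivity : (0:ℝ) ≤ a ^ 2)
      have h3 : (c * a) ^ 2 = c ^ 2 * a ^ 2 := by ring
      linarith)
    rw [hPHeq] at hw
    have h1 : (j.factorial : ℝ) * (PH X V' / 2) ^ j ≤ 5 * A ^ (2 * j) := hw.trans hm2j
    have h2 : (j.factorial : ℝ) * ((c * a) ^ 2 / 2) ^ j ≤ (j.factorial : ℝ) * (PH X V' / 2) ^ j := by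
      apply mul_le_mul_of_nonneg_left _ (by positivity)
      apply pow_le_pow_left₀ (by positivity)
      linarith
    have h3 : 5 * A ^ (2 * j) = 5 * (8 * C0 ^ 2 / c ^ 2) ^ j * ((c * a) ^ 2 / 2) ^ j := by
      rw [mul_assoc, ← mul_pow, hA, pow_mul]
      congr 2
      field_simp
      ring
    have h4 : 0 < ((c * a) ^ 2 / 2) ^ j := by positivity
    have h5 := mul_lt_mul_of_pos_right hjf h4
    linarith

end Pool.Agent.H380LD
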