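import Mathlib
set_option autoImplicit false
set_option linter.unusedSectionVars false
open Finset
open scoped BigOperators

namespace Pool.Agent.H380LD

variable {α ι : Type} [Fintype ι] [Nonempty ι]

/-- normalised correlation of two codewords -/
noncomputable def rho (X : α → ι → ℝ) (c d : α) : ℝ := 𝔼 x, X c x * X d x
/-- coordinatewise mean over `V` -/
noncomputable def mn (X : α → ι → ℝ) (V : Finset α) (x : ι) : ℝ := 𝔼 c ∈ V, X c x
/-- coordinate kernel -/
noncomputable def GG (X : α → ι → ℝ) (V : Finset α) (x y : ι) : ℝ := 𝔼 c ∈ V, X c x * X c y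
/-- second moment of the correlation -/
noncomputable def MM (X : α → ι → ℝ) (V : Finset α) : ℝ := 𝔼 x, 𝔼 y, (GG X V x y) ^ 2
/-- first moment of the correlation -/
noncomputable def SS (X : α → ι → ℝ) (V : Finset α) : ℝ := 𝔼 x, (mn X V x) ^ 2

/-- squared Hilbert-Schmidt norm of the centred kernel -/
noncomputable def PH (X : α → ι → ℝ) (V : Finset α) : ℝ :=
  𝔼 x, 𝔼 y, (GG X V x y - mn X V x * mn X V y) ^ 2

/-- sign of a Boolean -/
def sg (b : Bool) : ℝ := if b then 1 else -1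

/-- the constant `κ = C(2k,k)/4^k` -/
noncomputable def kap (k : ℕ) : ℝ := (Nat.choose (2 * k) k : ℝ) / 4 ^ k

/-- `2k+1` members of `V` lie in a ball whose centre has correlation `≥ κ - θ` with all of them -/
def Good (X : α → ι → ℝ) (V : Finset α) (k : ℕ) (θ : ℝ) : Prop :=
  ∃ W : Finset α, W ⊆ V ∧ W.card = 2 * k + 1 ∧ ∃ z : ι → Bool, ∀ c ∈ W, kap k - θ ≤ 𝔼 x, sg (z x) * X c x

/-- sign valued -/
def Sg (X : α → ι → ℝ) : Prop := ∀ c x, X c x = 1 ∨ X c x = -1

omit [Fintype ι] [Nonempty ι] in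
lemma Sg.sq {X : α → ι → ℝ} (h : Sg X) (c : α) (x : ι) : X c x * X c x = 1 := by
  rcases h c x with h | h <;> rw [h] <;> norm_num

omit [Fintype ι] [Nonempty ι] in
lemma Sg.abs {X : α → ι → ℝ} (h : Sg X) (c : α) (x : ι) : |X c x| = 1 := by
  rcases h c x with h | h <;> rw [h] <;> norm_num

lemma rho_self {X : α → ι → ℝ} (h : Sg X) (c : α) : rho X c c = 1 := by
  unfold rho
  simp [h.sq]

lemma abs_rho_le {X : α → ι → ℝ} (h : Sg X) (c d : α) : |rho X c d| ≤ 1 := by
  unfold rho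
  refine (abs_expect_le _ _).trans ?_
  refine expect_le univ_nonempty ?_
  intro x _
  rw [abs_mul, h.abs, h.abs]; norm_num

omit [Nonempty ι] in
/-- power moments of the correlation -/
lemma mom_eq (X : α → ι → ℝ) (V : Finset α) (j : ℕ) :
    𝔼 c ∈ V, 𝔼 d ∈ V, (rho X c d) ^ j
      = 𝔼 p ∈ Fintype.piFinset (fun _ : Fin j => (univ : Finset ι)), (𝔼 c ∈ V, ∏ i, X c (p i)) ^ 2 := by
  have h1 : ∀ c d, (rho X c d) ^ j
      = 𝔼 p ∈ Fintype.piFinset (fun _ : Fin j => (univ : Finset ι)),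
          (∏ i, X c (p i)) * (∏ i, X d (p i)) := by
    intro c d
    unfold rho
    rw [expect_pow]
    refine expect_congr rfl ?_
    intro p _
    rw [prod_mul_distrib]
  simp_rw [h1]
  have h2 : ∀ c, 𝔼 d ∈ V, 𝔼 p ∈ Fintype.piFinset (fun _ : Fin j => (univ : Finset ι)),
          (∏ i, X c (p i)) * (∏ i, X d (p i))
      = 𝔼 p ∈ Fintype.piFinset (fun _ : Fin j => (univ : Finset ι)),
          (∏ i, X c (p i)) * (𝔼 d ∈ V, ∏ i, X d (p i)) := by
    intro c
    rw [expect_comm]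
    refine expect_congr rfl ?_
    intro p _
    rw [mul_expect]
  simp_rw [h2]
  rw [expect_comm]
  refine expect_congr rfl ?_
  intro p _
  rw [← expect_mul, sq]

omit [Nonempty ι] in
lemma mom_nonneg (X : α → ι → ℝ) (V : Finset α) (j : ℕ) :
    0 ≤ 𝔼 c ∈ V, 𝔼 d ∈ V, (rho X c d) ^ j := by
  rw [mom_eq]
  exact expect_nonneg (fun p _ => sq_nonneg _)

omit [Nonempty ι] in
lemma SS_eq (X : α → ι → ℝ) (V : Finset α) :
    𝔼 c ∈ V, 𝔼 d ∈ V, rho X c d = SS X V := by
  unfold rho SS mn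
  have h2 : ∀ c, 𝔼 d ∈ V, 𝔼 x, X c x * X d x = 𝔼 x, X c x * (𝔼 d ∈ V, X d x) := by
    intro c
    rw [expect_comm]
    refine expect_congr rfl ?_
    intro p _
    rw [mul_expect]
  simp_rw [h2]
  rw [expect_comm]
  refine expect_congr rfl ?_
  intro p _
  rw [← expect_mul, sq]

omit [Nonempty ι] in
lemma MM_eq (X : α → ι → ℝ) (V : Finset α) :
    𝔼 c ∈ V, 𝔼 d ∈ V, (rho X c d) ^ 2 = MM X V := by
  unfold rho MM GG
  have h1 : ∀ c d, (𝔼 x, X c x * X d x) ^ 2 = 𝔼 x, 𝔼 y, (X c x * X c y) * (X d x * X d y) := by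
    intro c d
    rw [sq, expect_mul_expect]
    refine expect_congr rfl ?_
    intro x _
    refine expect_congr rfl ?_
    intro y _
    ring
  simp_rw [h1]
  have h2 : ∀ c, 𝔼 d ∈ V, 𝔼 x, 𝔼 y, (X c x * X c y) * (X d x * X d y)
      = 𝔼 x, 𝔼 y, (X c x * X c y) * (𝔼 d ∈ V, (X d x * X d y)) := by
    intro c
    rw [expect_comm]
    refine expect_congr rfl ?_
    intro x _
    rw [expect_comm]
    refine expect_congr rfl ?_
    intro y _
    rw [mul_expect]
  simp_rw [h2]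
  rw [expect_comm]
  refine expect_congr rfl ?_
  intro x _
  rw [expect_comm]
  refine expect_congr rfl ?_
  intro y _
  rw [← expect_mul, sq]

lemma abs_GG_le {X : α → ι → ℝ} (h : Sg X) (V : Finset α) (x y : ι) : |GG X V x y| ≤ 1 := by
  unfold GG
  rcases V.eq_empty_or_nonempty with rfl | hV
  · simp
  refine (abs_expect_le _ _).trans ?_
  refine expect_le hV ?_
  intro c _
  rw [abs_mul, h.abs, h.abs]; norm_num

lemma abs_mn_le {X : α → ι → ℝ} (h : Sg X) (V : Finset α) (x : ι) : |mn X V x| ≤ 1 := by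
  unfold mn
  rcases V.eq_empty_or_nonempty with rfl | hV
  · simp
  refine (abs_expect_le _ _).trans ?_
  refine expect_le hV ?_
  intro c _
  rw [h.abs]

omit [Nonempty ι] in
lemma MM_nonneg (X : α → ι → ℝ) (V : Finset α) : 0 ≤ MM X V :=
  expect_nonneg (fun _ _ => expect_nonneg (fun _ _ => sq_nonneg _))

omit [Nonempty ι] in
lemma SS_nonneg (X : α → ι → ℝ) (V : Finset α) : 0 ≤ SS X V :=
  expect_nonneg (fun _ _ => sq_nonneg _)

lemma MM_le_one {X : α → ι → ℝ} (h : Sg X) (V : Finset α) : MM X V ≤ 1 := by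
  unfold MM
  refine expect_le univ_nonempty (fun x _ => expect_le univ_nonempty (fun y _ => ?_))
  have := abs_GG_le h V x y
  rw [← sq_abs]
  nlinarith [abs_nonneg (GG X V x y)]

lemma jensen_sq {β : Type} (s : Finset β) (f : β → ℝ) : (𝔼 i ∈ s, f i) ^ 2 ≤ 𝔼 i ∈ s, f i ^ 2 := by
  rcases s.eq_empty_or_nonempty with rfl | hs
  · simp
  have := expect_mul_sq_le_sq_mul_sq s f (fun _ => (1:ℝ))
  simpa [expect_const hs] using this

omit [Nonempty ι] in
lemma SS_sq_le (X : α → ι → ℝ) (V : Finset α) : SS X V ^ 2 ≤ MM X V := by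
  rw [← SS_eq, ← MM_eq]
  refine (jensen_sq _ _).trans ?_
  exact expect_le_expect (fun c _ => jensen_sq _ _)

end Pool.Agent.H380LD
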