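import Pool.Agent.Helper380.LD.Asm
set_option autoImplicit false
set_option linter.unusedSectionVars false
open Finset
open scoped BigOperators

namespace Pool.Agent.H380LD

/-- an integer `q` large enough -/
lemma exists_q (q1 j : ℕ) (x : ℝ) : ∃ q : ℕ, 100 ≤ q ∧ q1 ≤ q ∧ j + 1 ≤ q ∧ x ≤ 4 ^ q := by
  obtain ⟨n, hn⟩ := pow_unbounded_of_one_lt x (by norm_num : (1:ℝ) < 4)
  refine ⟨max n (max 100 (max q1 (j+1))), ?_, ?_, ?_, ?_⟩
  · simp
  · simp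
  · simp
  · refine hn.le.trans ?_
    exact pow_le_pow_right₀ (by norm_num) (by simp)

/-- a factorial beats a power -/
lemma exists_j (x : ℝ) : ∃ j : ℕ, 1 ≤ j ∧ 5 * x ^ j < (j.factorial : ℝ) := by
  have h := FloorSemiring.tendsto_pow_div_factorial_atTop x
  have h2 := (h.eventually (gt_mem_nhds (by norm_num : (0:ℝ) < 1/5))).and (Filter.eventually_ge_atTop 1)
  obtain ⟨j, hj, hj1⟩ := h2.exists
  refine ⟨j, hj1, ?_⟩
  have hf : (0:ℝ) < (j.factorial : ℝ) := by exact_mod_cast j.factorial_pos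
  rw [div_lt_iff₀ hf] at hj
  linarith

theorem main_poly (hWin : WindowStmt) (k : ℕ) (hk : 2 ≤ k) :
    ∃ C : ℝ, ∃ K : ℕ, ∀ ε : ℝ, 0 < ε → ε < 1 →
      ∀ (ι α : Type) [Fintype ι] [Nonempty ι] [DecidableEq α] (X : α → ι → ℝ), Sg X →
        ∀ V : Finset α, C * (1/ε)^K < (V.card : ℝ) → Good X V k (2*ε) := by
  have hκ := kap_pos k
  set B : ℝ := 2 ^ (2 * k + 1) with hB
  have hB1 : 32 ≤ B := by
    have : (2:ℝ) ^ 5 ≤ 2 ^ (2 * k + 1) := pow_le_pow_right₀ (by norm_num) (by omega)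
    rw [hB]; linarith
  have hB0 : 0 < B := by linarith
  set κ : ℝ := kap k with hκd
  set C0 : ℝ := (6 * B / κ) * B with hC0d
  have hC0 : 0 < C0 := by positivity
  set N : ℝ := ((2 * k + 1 : ℕ):ℝ) with hN
  have hN1 : 1 ≤ N := by rw [hN]; exact_mod_cast (by omega : 1 ≤ 2 * k + 1)
  have hN0 : 0 < N := by linarith
  set δ : ℝ := min 1 (κ / (N * 4 * B)) with hδd
  have hδ : 0 < δ := by rw [hδd]; exact lt_min one_pos (by positivity)
  have hδ1 : δ ≤ 1 := min_le_left _ _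
  have hδ2' : δ ≤ κ / (N * 4 * B) := min_le_right _ _
  set c : ℝ := δ ^ 2 / (8 * B * N) with hcd
  have hc : 0 < c := by positivity
  obtain ⟨j, hj1, hjf⟩ := exists_j (8 * C0 ^ 2 / c ^ 2)
  have hj0 : (1:ℝ) ≤ (j:ℝ) := by exact_mod_cast hj1
  set δ2 : ℝ := c / j with hδ2d
  have hδ2 : 0 < δ2 := by positivity
  set β : ℝ := 384 * C0 ^ 2 / δ2 + 1 with hβd
  have hβ : 0 < β := by positivity
  have hβ1 : 1 ≤ β := by
    rw [hβd]
    have : 0 < 384 * C0 ^ 2 / δ2 := by positivity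
    linarith
  obtain ⟨q1, hq1⟩ := exists_nat_ge (max 1 (12 * β ^ 2 / δ2 ^ 2))
  have hq1a : 1 ≤ q1 := by
    have := (le_max_left _ _).trans hq1
    exact_mod_cast this
  have hq1b := (le_max_right _ _).trans hq1
  obtain ⟨q, hq100, hqq, hjq, hq4⟩ := exists_q q1 j
    (5 * (2 * 4 ^ q1) * (5/4:ℝ) ^ (2 * j + 1) + 5 * (2 * 4 ^ q1) * (5/4:ℝ) ^ 5)
  clear_value B κ N δ c δ2 β C0
  refine ⟨4 * N ^ 2 * (4 ^ q1 * 2 ^ q) * (50 * B ^ 3) ^ q, 2 * q, ?_⟩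
  intro ε hε hε1 ι α _ _ _ X hX V hV
  have hVn : V.Nonempty := by
    rw [← card_pos]
    have : (0:ℝ) < V.card := lt_of_le_of_lt (by positivity) hV
    exact_mod_cast this
  have he : 0 < ε ^ 2 / (50 * B ^ 3) := by positivity
  refine core hWin X hX V hVn k hk q q1 j (ε ^ 2 / (50 * B ^ 3)) C0 c δ δ2 β ε hε he ?_ hC0 hc hδ hδ2 hβ
    hj1 hq1a hqq hq100 ?_ ?_ ?_ ?_ hjf ?_ ?_ ?_ (by omega) ?_ ?_ ?_ ?_
  · rw [div_le_one (by positivity)]
    have h1 : ε ^ 2 ≤ 1 := pow_le_one₀ hε.le hε1.le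
    have h2 : 1 ≤ B ^ 3 := one_le_pow₀ (by linarith)
    linarith
  · rw [← hB, ← hκd, hC0d]
    rw [div_lt_iff₀ (by positivity)]
    have h1 : (κ / (6 * B)) ^ 2 * (6 * B / κ * B) ^ 2 = B ^ 2 := by field_simp
    rw [h1]
    have h2 : B * 1 < B * B := mul_lt_mul_of_pos_left (by linarith) hB0
    rw [sq]
    linarith
  · rw [hcd, div_le_div_iff₀ (by positivity) (by norm_num)]
    have h1 : δ ^ 2 ≤ 1 := pow_le_one₀ hδ.le hδ1
    have h2 : 32 ≤ B * N := by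
      calc (32:ℝ) = 32 * 1 := by norm_num
        _ ≤ B * N := mul_le_mul hB1 hN1 (by norm_num) hB0.le
    linarith
  · rw [← hB, ← hN, hcd]
    apply le_of_eq; field_simp; ring
  · rw [← hB, ← hκd]
    have h2 : ((2:ℝ) * k + 1) = N := by rw [hN]; push_cast; ring
    rw [h2]
    calc B * δ ≤ B * (κ / (N * 4 * B)) := mul_le_mul_of_nonneg_left hδ2' hB0.le
      _ = κ / N / 4 := by field_simp
  · rw [hδ2d, div_pow]
    have h2 : (j:ℝ) * (c ^ 2 / (j:ℝ) ^ 2) = c ^ 2 / j := by field_simp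
    rw [h2]
    exact div_le_self (by positivity) hj0
  · have h1 : 384 * C0 ^ 2 = δ2 * (384 * C0 ^ 2 / δ2) := by field_simp
    rw [h1]
    apply mul_le_mul_of_nonneg_left _ hδ2.le
    have h3 : 384 * C0 ^ 2 / δ2 ≤ β := by rw [hβd]; linarith
    have h4 : β * 1 ≤ β * β := mul_le_mul_of_nonneg_left hβ1 hβ.le
    rw [sq β]
    linarith
  · rw [div_le_iff₀ (by positivity)] at hq1b
    linarith
  · refine le_trans ?_ hq4
    have : 0 < 5 * (2 * 4 ^ q1) * (5/4:ℝ) ^ 5 := by positivity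
    linarith
  · refine le_trans ?_ hq4
    have : 0 < 5 * (2 * 4 ^ q1) * (5/4:ℝ) ^ (2 * j + 1) := by positivity
    linarith
  · have h1 : (2:ℝ) ^ (2 * k + 2) = 2 * B := by rw [hB]; ring
    rw [h1, ← hB]
    apply le_of_eq
    field_simp
    ring
  · rw [← hN]
    have h1 : (ε ^ 2 / (50 * B ^ 3)) ^ q * (4 * N ^ 2 * (4 ^ q1 * 2 ^ q) * (50 * B ^ 3) ^ q * (1 / ε) ^ (2 * q))
        = 4 * N ^ 2 * (4 ^ q1 * 2 ^ q) := by
      rw [pow_mul (1 / ε), div_pow]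
      have h3 : (ε ^ 2) ^ q * ((1 / ε) ^ 2) ^ q = 1 := by
        rw [← mul_pow]
        have : ε ^ 2 * (1 / ε) ^ 2 = 1 := by field_simp
        rw [this, one_pow]
      have h4 : (0:ℝ) < (50 * B ^ 3) ^ q := by positivity
      calc (ε ^ 2) ^ q / (50 * B ^ 3) ^ q * (4 * N ^ 2 * (4 ^ q1 * 2 ^ q) * (50 * B ^ 3) ^ q * ((1 / ε) ^ 2) ^ q)
          = ((ε ^ 2) ^ q * ((1 / ε) ^ 2) ^ q) * (4 * N ^ 2 * (4 ^ q1 * 2 ^ q)) * ((50 * B ^ 3) ^ q / (50 * B ^ 3) ^ q) := by ring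
        _ = _ := by rw [h3, div_self h4.ne']; ring
    rw [← h1]
    exact mul_le_mul_of_nonneg_left hV.le (by positivity)

end Pool.Agent.H380LD
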