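import Pool.Agent.Helper380.LD.Maj2
set_option autoImplicit false
set_option linter.unusedSectionVars false
open Finset
open scoped BigOperators

namespace Pool.Agent.H380LD

variable {J : Type} [Fintype J] [DecidableEq J]
variable {α ι : Type} [Fintype ι] [Nonempty ι] [DecidableEq α]

omit [Fintype ι] [Nonempty ι] in
/-- product formula for iid uniform tuples -/
lemma pf (V : Finset α) (g : J → α → ℝ) :
    𝔼 T ∈ Fintype.piFinset (fun _ : J => V), ∏ j, g j (T j) = ∏ j, 𝔼 c ∈ V, g j c := by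
  rw [expect_eq_sum_div_card]
  simp_rw [expect_eq_sum_div_card]
  rw [prod_div_distrib, prod_univ_sum, prod_const, Fintype.card_piFinset]
  simp

omit [Fintype ι] [Nonempty ι] in
lemma pfS (V : Finset α) (hV : V.Nonempty) (S : Finset J) (f : α → ℝ) :
    𝔼 T ∈ Fintype.piFinset (fun _ : J => V), ∏ j ∈ S, f (T j) = (𝔼 c ∈ V, f c) ^ S.card := by
  have h1 : ∀ T : J → α, ∏ j ∈ S, f (T j) = ∏ j, (if j ∈ S then f (T j) else 1) := by
    intro T
    rw [prod_ite_mem, univ_inter]
  simp_rw [h1]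
  rw [pf V (fun j c => if j ∈ S then f c else 1)]
  have h2 : ∀ j, 𝔼 c ∈ V, (if j ∈ S then f c else 1) = if j ∈ S then 𝔼 c ∈ V, f c else 1 := by
    intro j
    split_ifs
    · rfl
    · exact expect_const hV _
  simp_rw [h2]
  rw [prod_ite_mem, univ_inter, prod_const]

lemma ERS (X : α → ι → ℝ) (V : Finset α) (hV : V.Nonempty) (S : Finset J) :
    𝔼 T ∈ Fintype.piFinset (fun _ : J => V), RS X T S = 𝔼 x, (mn X V x) ^ S.card := by
  unfold RS
  rw [expect_comm]
  refine expect_congr rfl (fun x _ => ?_)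
  exact pfS V hV S (fun c => X c x)

lemma ERS2 (X : α → ι → ℝ) (V : Finset α) (hV : V.Nonempty) (S : Finset J) :
    𝔼 T ∈ Fintype.piFinset (fun _ : J => V), (RS X T S) ^ 2 = 𝔼 x, 𝔼 y, (GG X V x y) ^ S.card := by
  have h1 : ∀ T : J → α, (RS X T S) ^ 2 = 𝔼 x, 𝔼 y, ∏ j ∈ S, (X (T j) x * X (T j) y) := by
    intro T
    unfold RS
    rw [sq, expect_mul_expect]
    simp_rw [← prod_mul_distrib]
  simp_rw [h1]
  rw [expect_comm]
  refine expect_congr rfl (fun x _ => ?_)
  rw [expect_comm]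
  refine expect_congr rfl (fun y _ => ?_)
  exact pfS V hV S (fun c => X c x * X c y)

omit [Fintype ι] [Nonempty ι] in
/-- coincidence probability -/
lemma Ecoin (V : Finset α) (hV : V.Nonempty) {i j : J} (hij : i ≠ j) :
    𝔼 T ∈ Fintype.piFinset (fun _ : J => V), (if T i = T j then (1:ℝ) else 0) = 1 / V.card := by
  have hc : (0:ℝ) < V.card := by exact_mod_cast hV.card_pos
  have h1 : ∀ T ∈ Fintype.piFinset (fun _ : J => V), (if T i = T j then (1:ℝ) else 0)
      = ∑ c ∈ V, ∏ l ∈ ({i, j} : Finset J), (if T l = c then (1:ℝ) else 0) := by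
    intro T hT
    rw [Fintype.mem_piFinset] at hT
    simp_rw [prod_pair hij]
    split_ifs with h
    · rw [sum_eq_single (T i)]
      · simp [h]
      · intro c _ hc
        rw [if_neg (fun h => hc h.symm)]; ring
      · intro h2; exact absurd (hT i) h2
    · symm
      refine sum_eq_zero (fun c _ => ?_)
      by_cases h3 : T i = c
      · have h5 : ¬ (T j = c) := fun h4 => h (h3.trans h4.symm)
        rw [if_neg h5]; ring
      · rw [if_neg h3]; ring
  rw [expect_congr rfl h1, expect_sum_comm]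
  have h2 : ∀ c ∈ V, 𝔼 T ∈ Fintype.piFinset (fun _ : J => V), ∏ l ∈ ({i, j} : Finset J), (if T l = c then (1:ℝ) else 0)
      = (1 / V.card) ^ 2 := by
    intro c hc2
    rw [pfS V hV {i, j} (fun d => if d = c then (1:ℝ) else 0), card_pair hij]
    congr 1
    rw [expect_eq_sum_div_card]
    simp [hc2]
  rw [sum_congr rfl h2, sum_const, nsmul_eq_mul]
  field_simp

/-- total coincidence functional -/
noncomputable def coin (T : J → α) : ℝ := ∑ p ∈ (univ : Finset (J × J)).filter (fun p => p.1 ≠ p.2),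
  (if T p.1 = T p.2 then (1:ℝ) else 0)

omit [Fintype ι] [Nonempty ι] in
lemma coin_nonneg (T : J → α) : 0 ≤ coin T := by
  unfold coin
  refine sum_nonneg (fun p _ => ?_)
  split_ifs <;> norm_num

omit [Fintype ι] [Nonempty ι] in
lemma inj_of_coin (T : J → α) (h : coin T < 1) : Function.Injective T := by
  intro i j hij
  by_contra hne
  have : (1:ℝ) ≤ coin T := by
    unfold coin
    have hm : (i, j) ∈ (univ : Finset (J × J)).filter (fun p => p.1 ≠ p.2) := by simp [hne]
    have := single_le_sum (f := fun p : J × J => (if T p.1 = T p.2 then (1:ℝ) else 0))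
      (fun p _ => by show (0:ℝ) ≤ if T p.1 = T p.2 then (1:ℝ) else 0; split_ifs <;> norm_num) hm
    simpa [hij] using this
  linarith

omit [Fintype ι] [Nonempty ι] in
lemma Ecoin_le (V : Finset α) (hV : V.Nonempty) (L : ℕ) (hJ : Fintype.card J = L)
    (hbig : 4 * (L:ℝ) ^ 2 ≤ V.card) :
    𝔼 T ∈ Fintype.piFinset (fun _ : J => V), coin T ≤ 1 / 4 := by
  have hc : (0:ℝ) < V.card := by exact_mod_cast hV.card_pos
  unfold coin
  rw [expect_sum_comm]
  have h1 : ∀ p ∈ (univ : Finset (J × J)).filter (fun p => p.1 ≠ p.2),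
      𝔼 T ∈ Fintype.piFinset (fun _ : J => V), (if T p.1 = T p.2 then (1:ℝ) else 0) = 1 / V.card := by
    intro p hp
    rw [mem_filter] at hp
    exact Ecoin V hV hp.2
  rw [sum_congr rfl h1, sum_const, nsmul_eq_mul]
  have h2 : ((((univ : Finset (J × J)).filter (fun p => p.1 ≠ p.2)).card : ℕ) : ℝ) ≤ (L:ℝ) ^ 2 := by
    have : ((univ : Finset (J × J)).filter (fun p => p.1 ≠ p.2)).card ≤ L ^ 2 := by
      refine (card_filter_le _ _).trans ?_
      rw [Finset.card_univ, Fintype.card_prod, hJ, sq]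
    exact_mod_cast this
  rw [mul_one_div, div_le_iff₀ hc]
  linarith

/-- generic tuple, small second moment -/
lemma generic_small (X : α → ι → ℝ) (hX : Sg X) (V : Finset α) (hV : V.Nonempty) (k : ℕ)
    (hbig : 4 * ((2 * k + 1 : ℕ):ℝ) ^ 2 ≤ V.card) (δ θ : ℝ) (hδ : 0 < δ) (hθ : 2 ^ (2 * k + 1) * δ ≤ θ)
    (hM : 2 ^ (2 * k + 2) * MM X V < δ ^ 2) : Good X V k θ := by
  have hJ : Fintype.card (Fin (2 * k + 1)) = 2 * k + 1 := Fintype.card_fin _
  set Q : (Fin (2 * k + 1) → α) → ℝ := fun T =>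
    (∑ S ∈ (univ : Finset (Finset (Fin (2 * k + 1)))).filter (fun S => S.Nonempty ∧ Even S.card),
      (RS X T S) ^ 2 / δ ^ 2) + coin T with hQ
  have hE : 𝔼 T ∈ Fintype.piFinset (fun _ : Fin (2 * k + 1) => V), Q T < 1 := by
    simp only [hQ]
    rw [expect_add_distrib, expect_sum_comm]
    have h1 := Ecoin_le (J := Fin (2 * k + 1)) V hV (2 * k + 1) hJ hbig
    have h2 : ∑ S ∈ (univ : Finset (Finset (Fin (2 * k + 1)))).filter (fun S => S.Nonempty ∧ Even S.card),
        𝔼 T ∈ Fintype.piFinset (fun _ : Fin (2 * k + 1) => V), (RS X T S) ^ 2 / δ ^ 2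
        ≤ 2 ^ (2 * k + 1) * (MM X V / δ ^ 2) := by
      have h3 : ∀ S ∈ (univ : Finset (Finset (Fin (2 * k + 1)))).filter (fun S => S.Nonempty ∧ Even S.card),
          𝔼 T ∈ Fintype.piFinset (fun _ : Fin (2 * k + 1) => V), (RS X T S) ^ 2 / δ ^ 2 ≤ MM X V / δ ^ 2 := by
        intro S hS
        rw [mem_filter] at hS
        rw [← expect_div]
        apply div_le_div_of_nonneg_right _ (by positivity)
        rw [ERS2 X V hV S]
        unfold MM
        refine expect_le_expect (fun x _ => expect_le_expect (fun y _ => ?_))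
        obtain ⟨r, hr⟩ := hS.2.2
        have hpos := hS.2.1.card_pos
        have hG := abs_GG_le hX V x y
        have hr' : S.card = 2 * r := by omega
        rw [hr', pow_mul]
        have h5 : (GG X V x y) ^ 2 ≤ 1 := by
          rw [← sq_abs]; exact pow_le_one₀ (abs_nonneg _) hG
        calc ((GG X V x y) ^ 2) ^ r ≤ ((GG X V x y) ^ 2) ^ 1 :=
              pow_le_pow_of_le_one (sq_nonneg _) h5 (by omega)
          _ = _ := pow_one _
      refine (sum_le_card_nsmul _ _ _ h3).trans ?_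
      rw [nsmul_eq_mul]
      apply mul_le_mul_of_nonneg_right _ (by have := MM_nonneg X V; positivity)
      have : ((univ : Finset (Finset (Fin (2 * k + 1)))).filter (fun S => S.Nonempty ∧ Even S.card)).card
          ≤ 2 ^ (2 * k + 1) := by
        refine (card_filter_le _ _).trans ?_
        rw [Finset.card_univ, Fintype.card_finset, Fintype.card_fin]
      exact_mod_cast this
    have h4 : 2 ^ (2 * k + 1) * (MM X V / δ ^ 2) < 1 / 2 := by
      rw [mul_div_assoc', div_lt_iff₀ (by positivity)]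
      have : (2:ℝ) ^ (2 * k + 2) = 2 * 2 ^ (2 * k + 1) := by ring
      rw [this] at hM; linarith
    linarith
  have hne : (Fintype.piFinset (fun _ : Fin (2 * k + 1) => V)).Nonempty :=
    Fintype.piFinset_nonempty.2 (fun _ => hV)
  obtain ⟨T, hT, hTQ⟩ := exists_lt_of_expect_lt hne hE
  rw [Fintype.mem_piFinset] at hT
  simp only [hQ] at hTQ
  have hc0 := coin_nonneg T
  have hs0 : 0 ≤ ∑ S ∈ (univ : Finset (Finset (Fin (2 * k + 1)))).filter (fun S => S.Nonempty ∧ Even S.card),
      (RS X T S) ^ 2 / δ ^ 2 := sum_nonneg (fun S _ => by positivity)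
  refine good_of_T hX hJ T (inj_of_coin T (by linarith)) hT (fun i => ?_)
  refine center_small hJ T i δ θ hδ.le hθ (fun S hS1 hS2 => ?_)
  have hm : S ∈ (univ : Finset (Finset (Fin (2 * k + 1)))).filter (fun S => S.Nonempty ∧ Even S.card) := by
    simp [hS1, hS2]
  have h5 := single_le_sum (f := fun S => (RS X T S) ^ 2 / δ ^ 2) (fun S _ => by positivity) hm
  have h6 : (RS X T S) ^ 2 / δ ^ 2 < 1 := by
    have : (RS X T S) ^ 2 / δ ^ 2 ≤ _ := h5
    linarith
  rw [div_lt_one (by positivity)] at h6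
  exact (abs_lt_of_sq_lt_sq h6 hδ.le).le

end Pool.Agent.H380LD
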