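import Pool.Agent.Helper380.LD.Gen
import Pool.Agent.Helper651.LDBiased
set_option autoImplicit false
set_option linter.unusedSectionVars false
open Finset
open scoped BigOperators

namespace Pool.Agent.H380LD

section fm
variable {J : Type} [Fintype J] [DecidableEq J]

lemma hat_sum_pow (F : (J → Bool) → ℝ) (m : ℝ) :
    ∑ S : Finset J, hat F S * m ^ S.card
      = (∑ η : J → Bool, F η * ∏ j, (1 + m * sg (η j))) / 2 ^ (Fintype.card J) := by
  unfold hat
  simp_rw [div_mul_eq_mul_div]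
  rw [← sum_div]
  congr 1
  simp_rw [sum_mul]
  rw [sum_comm]
  refine sum_congr rfl (fun η _ => ?_)
  have h1 : ∏ j, (1 + m * sg (η j)) = ∑ S : Finset J, m ^ S.card * chi S η := by
    rw [prod_one_add, powerset_univ]
    refine sum_congr rfl (fun S _ => ?_)
    unfold chi
    rw [prod_mul_distrib, prod_const]
  rw [h1, mul_sum]
  refine sum_congr rfl (fun S _ => ?_)
  ring

lemma sum_Fi (η : J → Bool) : ∑ i, Fi i η = |sm η| := by
  unfold Fi
  rw [← sum_mul]
  change sm η * mj η = _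
  unfold mj
  split_ifs with h
  · rw [abs_of_pos h, mul_one]
  · rw [abs_of_nonpos (not_lt.1 h)]; ring

lemma mj_rl (σ : Equiv.Perm J) (η : J → Bool) : mj (rl σ η) = mj η := by
  unfold mj; rw [sm_rl]

lemma fsym (m : ℝ) (i i' : J) :
    ∑ η : J → Bool, Fi i η * ∏ j, (1 + m * sg (η j))
      = ∑ η : J → Bool, Fi i' η * ∏ j, (1 + m * sg (η j)) := by
  rw [← Equiv.sum_comp (rl (Equiv.swap i i')) (fun η : J → Bool => Fi i η * ∏ j, (1 + m * sg (η j)))]
  refine sum_congr rfl (fun η _ => ?_)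
  have e1 : (Equiv.swap i i').symm i = i' := by
    rw [Equiv.symm_swap, Equiv.swap_apply_left]
  unfold Fi
  rw [mj_rl, rl_apply, e1]
  congr 1
  simp_rw [rl_apply]
  exact Equiv.prod_comp ((Equiv.swap i i').symm) (fun j => 1 + m * sg (η j))

lemma fm_ge {k : ℕ} (hk : 1 ≤ k) (hJ : Fintype.card J = 2 * k + 1) (i : J) {m : ℝ} (hm : |m| ≤ 1) :
    kap k + kap k / (2 * k + 1) * m ^ 2 ≤ ∑ S : Finset J, hat (Fi i) S * m ^ S.card := by
  have hL : (0:ℝ) < 2 * k + 1 := by positivity
  have h2 : (0:ℝ) < 2 ^ (2 * k + 1) := by positivity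
  -- choose a ≠ b
  have hcard : 1 < Fintype.card J := by omega
  obtain ⟨a, b, hab⟩ := Fintype.exists_pair_of_one_lt_card hcard
  have hb := Pool.Agent.H380LD.biased hab hm
  have hsum0 : ∑ η : J → Bool, |sm η| = (2 * k + 1) * (2 ^ (2 * k + 1) * kap k) := by
    have h3 : ∀ i' : J, ∑ η : J → Bool, Fi i' η = 2 ^ (2 * k + 1) * kap k := by
      intro i'
      have := hat_Fi_empty hJ i'
      unfold hat at this
      rw [div_eq_iff (by positivity), hJ] at this
      simp only [chi, prod_empty, mul_one] at this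
      rw [this]; ring
    simp_rw [← sum_Fi]
    rw [sum_comm, sum_congr rfl (fun i' _ => h3 i'), sum_const, Finset.card_univ, hJ, nsmul_eq_mul]
    push_cast; ring
  have hsum2 : ∑ η : J → Bool, sg (η a) * sg (η b) * |sm η| = 2 ^ (2 * k + 1) * kap k := by
    have h3 : ∀ i' : J, ∑ η : J → Bool, sg (η a) * sg (η b) * Fi i' η
        = 2 ^ (2 * k + 1) * hat (Fi i') {a, b} := by
      intro i'
      unfold hat
      rw [hJ, mul_div_cancel₀ _ h2.ne']
      refine sum_congr rfl (fun η _ => ?_)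
      unfold chi
      rw [prod_pair hab]; ring
    have h4 : ∀ η : J → Bool, sg (η a) * sg (η b) * |sm η| = ∑ i', sg (η a) * sg (η b) * Fi i' η := by
      intro η
      rw [← mul_sum, sum_Fi]
    simp_rw [h4]
    rw [sum_comm, sum_congr rfl (fun i' _ => h3 i'), ← mul_sum]
    congr 1
    have h5 : ∀ i' : J, hat (Fi i') {a, b}
        = - kap k / (2 * k - 1) + (if i' = a then kap k + kap k / (2 * k - 1) else 0)
          + (if i' = b then kap k + kap k / (2 * k - 1) else 0) := by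
      intro i'
      by_cases h6 : i' = a
      · subst h6
        rw [hat_Fi_mem_pair hJ hab, if_pos rfl, if_neg hab]; ring
      · by_cases h7 : i' = b
        · subst h7
          rw [pair_comm, hat_Fi_mem_pair hJ hab.symm, if_pos rfl, if_neg hab.symm]; ring
        · rw [hat_Fi_pair_notMem hk hJ hab (Ne.symm h6) (Ne.symm h7), if_neg h6, if_neg h7]; ring
    simp_rw [h5]
    rw [sum_add_distrib, sum_add_distrib]
    simp only [sum_const, Finset.card_univ, hJ, nsmul_eq_mul, sum_ite_eq', mem_univ, if_true]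
    have hk' : (1:ℝ) ≤ k := by exact_mod_cast hk
    have : (2 * (k:ℝ) - 1) ≠ 0 := by linarith
    push_cast
    field_simp
    ring
  have hall : (2 * (k:ℝ) + 1) * ∑ η : J → Bool, Fi i η * ∏ j, (1 + m * sg (η j))
      = ∑ η : J → Bool, (∏ j, (1 + m * sg (η j))) * |sm η| := by
    simp_rw [← sum_Fi, mul_sum]
    rw [sum_comm]
    have : ∀ i' ∈ (univ : Finset J), ∑ η : J → Bool, (∏ j, (1 + m * sg (η j))) * Fi i' η
        = ∑ η : J → Bool, Fi i η * ∏ j, (1 + m * sg (η j)) := by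
      intro i' _
      rw [fsym m i i']
      exact sum_congr rfl (fun η _ => mul_comm _ _)
    rw [sum_congr rfl this, sum_const, Finset.card_univ, hJ, nsmul_eq_mul, ← mul_sum]
    push_cast; ring
  rw [hat_sum_pow, hJ, le_div_iff₀ h2]
  rw [← hall, hsum0, hsum2] at hb
  have h8 : (kap k + kap k / (2 * k + 1) * m ^ 2) * 2 ^ (2 * k + 1) * (2 * k + 1)
      = (2 * k + 1) * (2 ^ (2 * k + 1) * kap k) + m ^ 2 * (2 ^ (2 * k + 1) * kap k) := by
    field_simp
  have h9 : (kap k + kap k / (2 * k + 1) * m ^ 2) * 2 ^ (2 * k + 1) * (2 * k + 1)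
      ≤ (∑ η : J → Bool, Fi i η * ∏ j, (1 + m * sg (η j))) * (2 * k + 1) := by
    rw [h8]; linarith
  exact le_of_mul_le_mul_right h9 hL

end fm

variable {α ι : Type} [Fintype ι] [Nonempty ι] [DecidableEq α]

omit [Nonempty ι] in
lemma cs2 (f g : ι → ι → ℝ) :
    (𝔼 x, 𝔼 y, f x y * g x y) ^ 2 ≤ (𝔼 x, 𝔼 y, f x y ^ 2) * (𝔼 x, 𝔼 y, g x y ^ 2) := by
  have := expect_mul_sq_le_sq_mul_sq ((univ : Finset ι) ×ˢ (univ : Finset ι))
    (fun p => f p.1 p.2) (fun p => g p.1 p.2)
  rw [expect_product' univ univ (fun x y => f x y * g x y),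
    expect_product' univ univ (fun x y => f x y ^ 2),
    expect_product' univ univ (fun x y => g x y ^ 2)] at this
  exact this

lemma center_mean {J : Type} [Fintype J] [DecidableEq J] {X : α → ι → ℝ} {k : ℕ} (hk : 1 ≤ k)
    (hJ : Fintype.card J = 2 * k + 1) (T : J → α) (i : J)
    (m : ι → ℝ) (hm : ∀ x, |m x| ≤ 1) (δ : ℝ) (hδ : 0 ≤ δ)
    (hS : ∀ S : Finset J, S.Nonempty → Even S.card → |RS X T S - 𝔼 x, (m x) ^ S.card| ≤ δ) :
    kap k + kap k / (2 * k + 1) * (𝔼 x, (m x) ^ 2) - 2 ^ (2 * k + 1) * δ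
      ≤ ∑ S : Finset J, hat (Fi i) S * RS X T S := by
  have h1 : kap k + kap k / (2 * k + 1) * (𝔼 x, (m x) ^ 2)
      ≤ ∑ S : Finset J, hat (Fi i) S * (𝔼 x, (m x) ^ S.card) := by
    have h2 : ∑ S : Finset J, hat (Fi i) S * (𝔼 x, (m x) ^ S.card)
        = 𝔼 x, ∑ S : Finset J, hat (Fi i) S * (m x) ^ S.card := by
      rw [expect_sum_comm]
      refine sum_congr rfl (fun S _ => ?_)
      rw [mul_expect]
    rw [h2]
    have h3 : kap k + kap k / (2 * k + 1) * (𝔼 x, (m x) ^ 2)
        = 𝔼 x, (kap k + kap k / (2 * k + 1) * (m x) ^ 2) := by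
      rw [expect_add_distrib, Fintype.expect_const, mul_expect]
    rw [h3]
    exact expect_le_expect (fun x _ => fm_ge hk hJ i (hm x))
  have h2 : ∀ S : Finset J, hat (Fi i) S * (𝔼 x, (m x) ^ S.card) - δ ≤ hat (Fi i) S * RS X T S := by
    intro S
    rcases S.eq_empty_or_nonempty with rfl | hn
    · rw [RS_empty]; simp only [card_empty, pow_zero, Fintype.expect_const]; linarith
    · rcases Nat.even_or_odd S.card with he | ho
      · have h3 := hS S hn he
        have h4 := abs_hat_le (Fi i) (abs_Fi_le i) S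
        have h5 : |hat (Fi i) S * (RS X T S - 𝔼 x, (m x) ^ S.card)| ≤ 1 * δ := by
          rw [abs_mul]; exact mul_le_mul h4 h3 (abs_nonneg _) (by norm_num)
        have h6 := neg_abs_le (hat (Fi i) S * (RS X T S - 𝔼 x, (m x) ^ S.card))
        linarith
      · rw [hat_Fi_odd hJ i ho]; linarith
  have h3 := sum_le_sum (fun S (_ : S ∈ (univ : Finset (Finset J))) => h2 S)
  rw [sum_sub_distrib] at h3
  simp only [sum_const, nsmul_eq_mul, Finset.card_univ, Fintype.card_finset, hJ] at h3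
  push_cast at h3
  linarith


/-- weighted difference of powers, averaged -/
lemma pow_diff (X : α → ι → ℝ) (hX : Sg X) (V : Finset α) (c a : ℝ) (hc : 0 ≤ c) (ha : 0 < a)
    (hP : PH X V ≤ (c * a) ^ 2) (hM : MM X V ≤ (2 * a) ^ 2) (s : ℕ) (hs : 2 ≤ s) :
    |(𝔼 x, 𝔼 y, (GG X V x y) ^ s) - (𝔼 x, 𝔼 y, (mn X V x * mn X V y) ^ s)| ≤ s * (4 * c * a ^ 2) := by
  have h1 : ∀ x y, |(GG X V x y) ^ s - (mn X V x * mn X V y) ^ s|
      ≤ s * (|GG X V x y - mn X V x * mn X V y| * |GG X V x y|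
        + |GG X V x y - mn X V x * mn X V y| * |mn X V x * mn X V y|) := by
    intro x y
    have hg := abs_GG_le hX V x y
    have hh : |mn X V x * mn X V y| ≤ 1 := by
      rw [abs_mul]
      have h3 := abs_mn_le hX V x
      have h4 := abs_mn_le hX V y
      exact mul_le_one₀ h3 (abs_nonneg _) h4
    set g := GG X V x y
    set h := mn X V x * mn X V y
    have h2 := abs_pow_sub_pow_le g h s
    refine h2.trans ?_
    have hmax1 : max |g| |h| ≤ 1 := max_le hg hh
    have hmax0 : 0 ≤ max |g| |h| := (abs_nonneg g).trans (le_max_left _ _)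
    have h3 : max |g| |h| ^ (s - 1) ≤ |g| + |h| := by
      calc max |g| |h| ^ (s - 1) ≤ max |g| |h| ^ 1 :=
            pow_le_pow_of_le_one hmax0 hmax1 (by omega)
        _ = max |g| |h| := pow_one _
        _ ≤ |g| + |h| := max_le (by linarith [abs_nonneg h]) (by linarith [abs_nonneg g])
    calc |g - h| * s * max |g| |h| ^ (s - 1) ≤ |g - h| * s * (|g| + |h|) := by
          apply mul_le_mul_of_nonneg_left h3; positivity
      _ = _ := by ring
  have h2 : |(𝔼 x, 𝔼 y, (GG X V x y) ^ s) - (𝔼 x, 𝔼 y, (mn X V x * mn X V y) ^ s)|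
      ≤ 𝔼 x, 𝔼 y, |(GG X V x y) ^ s - (mn X V x * mn X V y) ^ s| := by
    rw [← expect_sub_distrib]
    refine (abs_expect_le _ _).trans (expect_le_expect (fun x _ => ?_))
    rw [← expect_sub_distrib]
    exact abs_expect_le _ _
  refine h2.trans ((expect_le_expect (fun x _ => expect_le_expect (fun y _ => h1 x y))).trans ?_)
  simp_rw [← mul_expect, expect_add_distrib]
  apply mul_le_mul_of_nonneg_left _ (by positivity)
  have hK0 : 0 ≤ PH X V := expect_nonneg (fun _ _ => expect_nonneg (fun _ _ => sq_nonneg _))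
  have hA : 𝔼 x, 𝔼 y, |GG X V x y - mn X V x * mn X V y| * |GG X V x y| ≤ 2 * c * a ^ 2 := by
    have h3 := cs2 (fun x y => |GG X V x y - mn X V x * mn X V y|) (fun x y => |GG X V x y|)
    simp only [sq_abs] at h3
    have h4 : (𝔼 x, 𝔼 y, |GG X V x y - mn X V x * mn X V y| * |GG X V x y|) ^ 2 ≤ (2 * c * a ^ 2) ^ 2 := by
      refine h3.trans ?_
      have : PH X V * MM X V ≤ (c * a) ^ 2 * (2 * a) ^ 2 :=
        mul_le_mul hP hM (MM_nonneg X V) (by positivity)
      refine le_trans this (le_of_eq (by ring))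
    exact (abs_le_of_sq_le_sq' h4 (by positivity)).2
  have hB : 𝔼 x, 𝔼 y, |GG X V x y - mn X V x * mn X V y| * |mn X V x * mn X V y| ≤ 2 * c * a ^ 2 := by
    have h3 := cs2 (fun x y => |GG X V x y - mn X V x * mn X V y|) (fun x y => |mn X V x * mn X V y|)
    simp only [sq_abs] at h3
    have h5 : 𝔼 x, 𝔼 y, (mn X V x * mn X V y) ^ 2 = SS X V ^ 2 := by
      unfold SS
      rw [sq (𝔼 x, (mn X V x) ^ 2), expect_mul_expect]
      refine expect_congr rfl (fun x _ => expect_congr rfl (fun y _ => ?_))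
      ring
    have h4 : (𝔼 x, 𝔼 y, |GG X V x y - mn X V x * mn X V y| * |mn X V x * mn X V y|) ^ 2 ≤ (2 * c * a ^ 2) ^ 2 := by
      refine h3.trans ?_
      rw [h5]
      have h6 : SS X V ^ 2 ≤ (2 * a) ^ 2 := (SS_sq_le X V).trans hM
      have : PH X V * SS X V ^ 2 ≤ (c * a) ^ 2 * (2 * a) ^ 2 :=
        mul_le_mul hP h6 (sq_nonneg _) (by positivity)
      refine le_trans this (le_of_eq (by ring))
    exact (abs_le_of_sq_le_sq' h4 (by positivity)).2
  linarith

/-- generic tuple, mean dominated case -/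
lemma generic_mean (X : α → ι → ℝ) (hX : Sg X) (V : Finset α) (hV : V.Nonempty) (k : ℕ) (hk : 1 ≤ k)
    (hbig : 4 * ((2 * k + 1 : ℕ):ℝ) ^ 2 ≤ V.card) (a c δ : ℝ) (ha : 0 < a) (hc : 0 < c) (hδ : 0 < δ)
    (hc1 : c ≤ 1 / 32) (hc2 : 2 ^ (2 * k + 1) * ((2 * k + 1 : ℕ):ℝ) * (4 * c) ≤ δ ^ 2 / 2)
    (hδ1 : 2 ^ (2 * k + 1) * δ ≤ kap k / (2 * k + 1) / 4)
    (hP : PH X V ≤ (c * a) ^ 2) (hM : MM X V ≤ (2 * a) ^ 2) (hM2 : a ^ 2 / 2 ≤ MM X V) :
    Good X V k 0 := by
  have hJ : Fintype.card (Fin (2 * k + 1)) = 2 * k + 1 := Fintype.card_fin _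
  have hL : (0:ℝ) < 2 * k + 1 := by positivity
  have hκ := kap_pos k
  -- SS is large
  have hSS : a / 4 ≤ SS X V := by
    have h1 := pow_diff X hX V c a hc.le ha hP hM 2 (le_refl 2)
    have h5 : 𝔼 x, 𝔼 y, (mn X V x * mn X V y) ^ 2 = SS X V ^ 2 := by
      unfold SS
      rw [sq (𝔼 x, (mn X V x) ^ 2), expect_mul_expect]
      refine expect_congr rfl (fun x _ => expect_congr rfl (fun y _ => ?_))
      ring
    rw [h5] at h1
    have h6 := (abs_le.1 h1).2
    have h7 : 𝔼 x, 𝔼 y, (GG X V x y) ^ 2 = MM X V := rfl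
    rw [h7] at h6
    push_cast at h6
    have h8 : 2 * (4 * c * a ^ 2) ≤ a ^ 2 / 4 := by nlinarith [sq_nonneg a]
    have h9 : (a / 4) ^ 2 ≤ SS X V ^ 2 := by nlinarith [sq_nonneg a]
    exact (abs_le_of_sq_le_sq' h9 (SS_nonneg X V)).2
  set μ : Finset (Fin (2 * k + 1)) → ℝ := fun S => 𝔼 x, (mn X V x) ^ S.card with hμ
  set Q : (Fin (2 * k + 1) → α) → ℝ := fun T =>
    (∑ S ∈ (univ : Finset (Finset (Fin (2 * k + 1)))).filter (fun S => S.Nonempty ∧ Even S.card),
      (RS X T S - μ S) ^ 2 / (δ * a) ^ 2) + coin T with hQ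
  have hE : 𝔼 T ∈ Fintype.piFinset (fun _ : Fin (2 * k + 1) => V), Q T < 1 := by
    simp only [hQ]
    rw [expect_add_distrib, expect_sum_comm]
    have h1 := Ecoin_le (J := Fin (2 * k + 1)) V hV (2 * k + 1) hJ hbig
    have h2 : ∑ S ∈ (univ : Finset (Finset (Fin (2 * k + 1)))).filter (fun S => S.Nonempty ∧ Even S.card),
        𝔼 T ∈ Fintype.piFinset (fun _ : Fin (2 * k + 1) => V), (RS X T S - μ S) ^ 2 / (δ * a) ^ 2
        ≤ 2 ^ (2 * k + 1) * (((2 * k + 1 : ℕ):ℝ) * (4 * c) / δ ^ 2) := by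
      have h3 : ∀ S ∈ (univ : Finset (Finset (Fin (2 * k + 1)))).filter (fun S => S.Nonempty ∧ Even S.card),
          𝔼 T ∈ Fintype.piFinset (fun _ : Fin (2 * k + 1) => V), (RS X T S - μ S) ^ 2 / (δ * a) ^ 2
            ≤ ((2 * k + 1 : ℕ):ℝ) * (4 * c) / δ ^ 2 := by
        intro S hS
        rw [mem_filter] at hS
        obtain ⟨r, hr⟩ := hS.2.2
        have hpos := hS.2.1.card_pos
        have hs2 : 2 ≤ S.card := by omega
        have hsL : S.card ≤ 2 * k + 1 := by
          have := card_le_univ S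
          rwa [hJ] at this
        rw [← expect_div]
        have hne : (Fintype.piFinset (fun _ : Fin (2 * k + 1) => V)).Nonempty :=
          Fintype.piFinset_nonempty.2 (fun _ => hV)
        have h4 : 𝔼 T ∈ Fintype.piFinset (fun _ : Fin (2 * k + 1) => V), (RS X T S - μ S) ^ 2
            = (𝔼 x, 𝔼 y, (GG X V x y) ^ S.card) - (𝔼 x, 𝔼 y, (mn X V x * mn X V y) ^ S.card) := by
          have h5 : ∀ T : Fin (2 * k + 1) → α, (RS X T S - μ S) ^ 2
              = (RS X T S) ^ 2 - (2 * μ S) * RS X T S + (μ S) ^ 2 := by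
            intro T; ring
          simp_rw [h5]
          rw [expect_add_distrib, expect_sub_distrib, ← mul_expect, expect_const hne, ERS2 X V hV S,
            ERS X V hV S]
          have h6 : 𝔼 x, 𝔼 y, (mn X V x * mn X V y) ^ S.card = μ S ^ 2 := by
            simp only [hμ]
            rw [sq, expect_mul_expect]
            refine expect_congr rfl (fun x _ => expect_congr rfl (fun y _ => ?_))
            rw [mul_pow]
          rw [h6]
          change _ - 2 * μ S * μ S + μ S ^ 2 = _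
          ring
        rw [h4]
        have h5 := (abs_le.1 (pow_diff X hX V c a hc.le ha hP hM S.card hs2)).2
        have h6 : (S.card : ℝ) * (4 * c * a ^ 2) ≤ ((2 * k + 1 : ℕ):ℝ) * (4 * c * a ^ 2) := by
          apply mul_le_mul_of_nonneg_right _ (by positivity)
          exact_mod_cast hsL
        rw [div_le_div_iff₀ (by positivity) (by positivity)]
        calc _ ≤ (((2 * k + 1 : ℕ):ℝ) * (4 * c * a ^ 2)) * δ ^ 2 := by
              apply mul_le_mul_of_nonneg_right (h5.trans h6) (by positivity)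
          _ = _ := by ring
      refine (sum_le_card_nsmul _ _ _ h3).trans ?_
      rw [nsmul_eq_mul]
      apply mul_le_mul_of_nonneg_right _ (by positivity)
      have : ((univ : Finset (Finset (Fin (2 * k + 1)))).filter (fun S => S.Nonempty ∧ Even S.card)).card
          ≤ 2 ^ (2 * k + 1) := by
        refine (card_filter_le _ _).trans ?_
        rw [Finset.card_univ, Fintype.card_finset, Fintype.card_fin]
      exact_mod_cast this
    have h4 : 2 ^ (2 * k + 1) * (((2 * k + 1 : ℕ):ℝ) * (4 * c) / δ ^ 2) ≤ 1 / 2 := by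
      rw [mul_div_assoc', div_le_iff₀ (by positivity)]
      linarith
    linarith
  have hne : (Fintype.piFinset (fun _ : Fin (2 * k + 1) => V)).Nonempty :=
    Fintype.piFinset_nonempty.2 (fun _ => hV)
  obtain ⟨T, hT, hTQ⟩ := exists_lt_of_expect_lt hne hE
  rw [Fintype.mem_piFinset] at hT
  simp only [hQ] at hTQ
  have hc0 := coin_nonneg T
  have hs0 : 0 ≤ ∑ S ∈ (univ : Finset (Finset (Fin (2 * k + 1)))).filter (fun S => S.Nonempty ∧ Even S.card),
      (RS X T S - μ S) ^ 2 / (δ * a) ^ 2 := sum_nonneg (fun S _ => by positivity)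
  refine good_of_T hX hJ T (inj_of_coin T (by linarith)) hT (fun i => ?_)
  have hcm := center_mean hk hJ T i (mn X V) (abs_mn_le hX V) (δ * a) (by positivity)
    (fun S hS1 hS2 => by
      have hm : S ∈ (univ : Finset (Finset (Fin (2 * k + 1)))).filter (fun S => S.Nonempty ∧ Even S.card) := by
        simp [hS1, hS2]
      have h5 := single_le_sum (f := fun S => (RS X T S - μ S) ^ 2 / (δ * a) ^ 2) (fun S _ => by positivity) hm
      have h6 : (RS X T S - μ S) ^ 2 / (δ * a) ^ 2 < 1 := by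
        have : (RS X T S - μ S) ^ 2 / (δ * a) ^ 2 ≤ _ := h5
        linarith
      rw [div_lt_one (by positivity)] at h6
      exact (abs_lt_of_sq_lt_sq h6 (by positivity)).le)
  refine le_trans ?_ hcm
  have h7 : kap k / (2 * k + 1) * (a / 4) ≤ kap k / (2 * k + 1) * (𝔼 x, (mn X V x) ^ 2) :=
    mul_le_mul_of_nonneg_left hSS (by positivity)
  have h8 : 2 ^ (2 * k + 1) * (δ * a) ≤ kap k / (2 * k + 1) * (a / 4) := by
    have := mul_le_mul_of_nonneg_right hδ1 ha.le
    calc 2 ^ (2 * k + 1) * (δ * a) = 2 ^ (2 * k + 1) * δ * a := by ring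
      _ ≤ kap k / (2 * k + 1) / 4 * a := this
      _ = _ := by ring
  linarith

end Pool.Agent.H380LD
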