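import Pool.Agent.Helper380.LD.Basic
set_option autoImplicit false
set_option linter.unusedSectionVars false
open Finset
open scoped BigOperators

namespace Pool.Agent.H380LD

variable {J : Type} [Fintype J] [DecidableEq J]

lemma sg_true : sg true = 1 := rfl
lemma sg_false : sg false = -1 := rfl
lemma sg_sq (b : Bool) : sg b * sg b = 1 := by cases b <;> norm_num [sg]
lemma sg_not (b : Bool) : sg (!b) = - sg b := by cases b <;> norm_num [sg]
lemma sg_abs (b : Bool) : |sg b| = 1 := by cases b <;> norm_num [sg]

/-- sum of the signs -/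
noncomputable def sm (η : J → Bool) : ℝ := ∑ j, sg (η j)
/-- majority -/
noncomputable def mj (η : J → Bool) : ℝ := if 0 < sm η then 1 else -1
/-- Walsh character -/
noncomputable def chi (S : Finset J) (η : J → Bool) : ℝ := ∏ j ∈ S, sg (η j)
/-- Fourier coefficient -/
noncomputable def hat (F : (J → Bool) → ℝ) (S : Finset J) : ℝ :=
  (∑ η, F η * chi S η) / 2 ^ (Fintype.card J)

lemma prod_one_add_sg (η ζ : J → Bool) :
    ∏ j, (1 + sg (η j) * sg (ζ j)) = if η = ζ then (2:ℝ) ^ (Fintype.card J) else 0 := by
  split_ifs with h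
  · subst h
    have : ∀ j ∈ (univ : Finset J), (1 + sg (η j) * sg (η j)) = 2 := by
      intro j _; rw [sg_sq]; norm_num
    rw [prod_congr rfl this]
    simp
  · have : ∃ j, η j ≠ ζ j := by
      by_contra hc
      push Not at hc
      exact h (funext hc)
    obtain ⟨j, hj⟩ := this
    refine prod_eq_zero (mem_univ j) ?_
    cases h1 : η j <;> cases h2 : ζ j <;> simp_all [sg]

lemma fourier_inv (F : (J → Bool) → ℝ) (ζ : J → Bool) :
    F ζ = ∑ S : Finset J, hat F S * chi S ζ := by
  have h1 : ∀ S : Finset J, hat F S * chi S ζ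
      = ∑ η, (F η / 2 ^ (Fintype.card J)) * (∏ j ∈ S, sg (η j) * sg (ζ j)) := by
    intro S
    unfold hat chi
    rw [sum_div, sum_mul]
    refine sum_congr rfl (fun η _ => ?_)
    rw [prod_mul_distrib]; ring
  simp_rw [h1]
  rw [sum_comm]
  have h2 : ∀ η : J → Bool, ∑ S : Finset J, (F η / 2 ^ (Fintype.card J)) * (∏ j ∈ S, sg (η j) * sg (ζ j))
      = if η = ζ then F η else 0 := by
    intro η
    rw [← mul_sum]
    have : ∑ S : Finset J, ∏ j ∈ S, sg (η j) * sg (ζ j) = ∏ j, (1 + sg (η j) * sg (ζ j)) := by
      rw [prod_one_add, powerset_univ]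
    rw [this, prod_one_add_sg]
    split_ifs with h
    · field_simp
    · simp
  simp_rw [h2]
  simp

lemma abs_chi (S : Finset J) (η : J → Bool) : |chi S η| = 1 := by
  unfold chi
  rw [abs_prod]
  exact prod_eq_one (fun j _ => sg_abs _)

lemma abs_hat_le (F : (J → Bool) → ℝ) (hF : ∀ η, |F η| ≤ 1) (S : Finset J) : |hat F S| ≤ 1 := by
  unfold hat
  rw [abs_div, abs_of_pos (by positivity : (0:ℝ) < 2 ^ (Fintype.card J))]
  rw [div_le_one (by positivity)]
  refine (abs_sum_le_sum_abs _ _).trans ?_
  have : ∀ η ∈ (univ : Finset (J → Bool)), |F η * chi S η| ≤ 1 := by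
    intro η _
    rw [abs_mul, abs_chi]; simpa using hF η
  refine (sum_le_sum this).trans ?_
  simp

/-- parity: twice number of trues minus card -/
lemma sm_eq (η : J → Bool) :
    sm η = 2 * ((univ.filter (fun j => η j = true)).card : ℝ) - Fintype.card J := by
  unfold sm
  have : ∀ j, sg (η j) = 2 * (if η j = true then (1:ℝ) else 0) - 1 := by
    intro j
    cases η j <;> norm_num [sg]
  simp_rw [this]
  rw [sum_sub_distrib, ← mul_sum]
  simp [Finset.card_univ]

/-- flip all -/
def fall (η : J → Bool) : J → Bool := fun j => !(η j)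

lemma fall_invol : Function.Involutive (fall (J := J)) := by
  intro η; funext j; simp [fall]

lemma sm_fall (η : J → Bool) : sm (fall η) = - sm η := by
  unfold sm fall
  simp_rw [sg_not]
  rw [sum_neg_distrib]

lemma chi_fall (S : Finset J) (η : J → Bool) : chi S (fall η) = (-1) ^ S.card * chi S η := by
  unfold chi fall
  simp_rw [sg_not]
  rw [show (fun j => - sg (η j)) = (fun j => (-1) * sg (η j)) from by funext j; ring]
  rw [prod_mul_distrib, prod_const]

/-- flip one coordinate -/
def fl (i : J) (η : J → Bool) : J → Bool := Function.update η i (!(η i))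

lemma fl_invol (i : J) : Function.Involutive (fl (J := J) i) := by
  intro η; funext j
  by_cases h : j = i
  · subst h; simp [fl]
  · simp [fl, h]

lemma fl_self (i : J) (η : J → Bool) : fl i η i = !(η i) := by simp [fl]
lemma fl_ne {i j : J} (h : j ≠ i) (η : J → Bool) : fl i η j = η j := by simp [fl, h]

lemma sum_fl (i : J) (F : (J → Bool) → ℝ) : ∑ η, F (fl i η) = ∑ η, F η :=
  Equiv.sum_comp ((fl_invol i).toPerm) F

lemma sum_fall (F : (J → Bool) → ℝ) : ∑ η, F (fall η) = ∑ η, F η :=
  Equiv.sum_comp (fall_invol.toPerm) F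

/-- sum over the other coordinates -/
noncomputable def oth (i : J) (η : J → Bool) : ℝ := ∑ j ∈ univ.erase i, sg (η j)

lemma sm_oth (i : J) (η : J → Bool) : sm η = oth i η + sg (η i) := by
  unfold sm oth
  rw [sum_erase_add _ _ (mem_univ i)]

lemma oth_fl (i : J) (η : J → Bool) : oth i (fl i η) = oth i η := by
  unfold oth
  refine sum_congr rfl (fun j hj => ?_)
  rw [fl_ne (ne_of_mem_erase hj)]

lemma oth_fall (i : J) (η : J → Bool) : oth i (fall η) = - oth i η := by
  unfold oth fall
  simp_rw [sg_not]
  rw [sum_neg_distrib]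


lemma oth_even {k : ℕ} (hJ : Fintype.card J = 2 * k + 1) (i : J) (η : J → Bool) :
    ∃ z : ℤ, oth i η = 2 * z := by
  have h1 := sm_eq η
  rw [sm_oth i η, hJ] at h1
  cases h : η i
  · rw [h, sg_false] at h1
    refine ⟨((univ.filter (fun j => η j = true)).card : ℤ) - k, ?_⟩
    push_cast at h1 ⊢
    linarith
  · rw [h, sg_true] at h1
    refine ⟨((univ.filter (fun j => η j = true)).card : ℤ) - k - 1, ?_⟩
    push_cast at h1 ⊢
    linarith

/-- the function `ξ_i maj(ξ)` -/
noncomputable def Fi (i : J) (η : J → Bool) : ℝ := sg (η i) * mj η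
/-- tie indicator of the others -/
noncomputable def ind0 (i : J) (η : J → Bool) : ℝ := if oth i η = 0 then 1 else 0

lemma ind0_fl (i : J) (η : J → Bool) : ind0 i (fl i η) = ind0 i η := by
  unfold ind0; rw [oth_fl]

lemma ind0_fall (i : J) (η : J → Bool) : ind0 i (fall η) = ind0 i η := by
  unfold ind0; rw [oth_fall]; simp only [neg_eq_zero]

lemma Fi_pair {k : ℕ} (hJ : Fintype.card J = 2 * k + 1) (i : J) (η : J → Bool) :
    Fi i η + Fi i (fl i η) = 2 * ind0 i η := by
  obtain ⟨z, hz⟩ := oth_even hJ i η
  unfold Fi mj ind0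
  rw [sm_oth i η, sm_oth i (fl i η), oth_fl, fl_self, sg_not, hz]
  rcases lt_trichotomy z 0 with h | h | h
  · have hz1 : (z:ℝ) ≤ -1 := by exact_mod_cast (by omega : z ≤ -1)
    have hz0 : ¬ ((2:ℝ) * z = 0) := by intro h0; linarith
    rw [if_neg hz0]
    have ha := sg_abs (η i)
    have h1 : sg (η i) ≤ 1 := by rw [← ha]; exact le_abs_self _
    have h2 : - sg (η i) ≤ 1 := by rw [← ha]; exact neg_le_abs _
    rw [if_neg (by linarith), if_neg (by linarith)]
    ring
  · subst h
    simp only [Int.cast_zero, mul_zero, zero_add, if_true]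
    cases η i <;> norm_num [sg]
  · have hz1 : (1:ℝ) ≤ z := by exact_mod_cast (by omega : 1 ≤ z)
    have hz0 : ¬ ((2:ℝ) * z = 0) := by intro h0; linarith
    rw [if_neg hz0]
    have ha := sg_abs (η i)
    have h1 : sg (η i) ≤ 1 := by rw [← ha]; exact le_abs_self _
    have h2 : - sg (η i) ≤ 1 := by rw [← ha]; exact neg_le_abs _
    rw [if_pos (by linarith), if_pos (by linarith)]
    ring

lemma sum_half (i : J) (F : (J → Bool) → ℝ) : ∑ η, F η = ∑ η, (F η + F (fl i η)) / 2 := by
  have := sum_fl i F
  rw [← sum_div, sum_add_distrib, this]; ring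

lemma sum_Fi_mul {k : ℕ} (hJ : Fintype.card J = 2 * k + 1) (i : J) (G : (J → Bool) → ℝ)
    (hG : ∀ η, G (fl i η) = G η) : ∑ η, Fi i η * G η = ∑ η, ind0 i η * G η := by
  rw [sum_half i (fun η => Fi i η * G η)]
  refine sum_congr rfl (fun η _ => ?_)
  rw [hG η, ← add_mul, Fi_pair hJ]; ring

lemma chi_fl {i : J} {S : Finset J} (hi : i ∉ S) (η : J → Bool) : chi S (fl i η) = chi S η := by
  unfold chi
  refine prod_congr rfl (fun j hj => ?_)
  have hji : j ≠ i := fun h => hi (by rw [← h]; exact hj)
  rw [fl_ne hji]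

lemma hat_Fi_notMem {k : ℕ} (hJ : Fintype.card J = 2 * k + 1) {i : J} {S : Finset J} (hi : i ∉ S) :
    hat (Fi i) S = (∑ η, ind0 i η * chi S η) / 2 ^ (2 * k + 1) := by
  unfold hat
  rw [sum_Fi_mul hJ i _ (chi_fl hi), hJ]

lemma kap_pos (k : ℕ) : 0 < kap k := by
  unfold kap
  have : 0 < Nat.choose (2 * k) k := Nat.choose_pos (by omega)
  positivity

lemma oth_eq (i : J) (η : J → Bool) :
    oth i η = 2 * (((univ.erase i).filter (fun j => η j = true)).card : ℝ) - (univ.erase i).card := by
  unfold oth
  have : ∀ j, sg (η j) = 2 * (if η j = true then (1:ℝ) else 0) - 1 := by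
    intro j
    cases η j <;> norm_num [sg]
  simp_rw [this]
  rw [sum_sub_distrib, ← mul_sum]
  simp

lemma sum_ind0 {k : ℕ} (hJ : Fintype.card J = 2 * k + 1) (i : J) :
    ∑ η : J → Bool, ind0 i η = 2 ^ (2 * k + 1) * kap k := by
  have hcard : (univ.erase i : Finset J).card = 2 * k := by
    rw [card_erase_of_mem (mem_univ i), Finset.card_univ, hJ]; rfl
  have h1 : ∀ η : J → Bool, ind0 i η
      = if ((univ.erase i).filter (fun j => η j = true)).card = k then (1:ℝ) else 0 := by
    intro η
    unfold ind0
    rw [oth_eq, hcard]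
    congr 1
    apply propext
    constructor
    · intro h
      have : (((univ.erase i).filter (fun j => η j = true)).card : ℝ) = k := by
        push_cast at h; linarith
      exact_mod_cast this
    · intro h
      rw [h]; push_cast; ring
  simp_rw [h1]
  rw [← sum_filter, sum_const, nsmul_eq_mul, mul_one]
  have h2 : (univ.filter (fun η : J → Bool => ((univ.erase i).filter (fun j => η j = true)).card = k)).card
      = ((powersetCard k (univ.erase i)) ×ˢ (univ : Finset Bool)).card := by
    refine card_nbij' (fun η => ((univ.erase i).filter (fun j => η j = true), η i))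
      (fun p => fun j => if j = i then p.2 else decide (j ∈ p.1)) ?_ ?_ ?_ ?_
    · intro η hη
      simp only [coe_filter, mem_univ, true_and, Set.mem_ofPred_eq] at hη
      simp only [coe_product, Set.mem_prod, mem_coe, mem_powersetCard, mem_univ, and_true]
      exact ⟨filter_subset _ _, hη⟩
    · intro p hp
      simp only [coe_product, Set.mem_prod, mem_coe, mem_powersetCard, mem_univ, and_true] at hp
      simp only [coe_filter, mem_univ, true_and, Set.mem_ofPred_eq]
      rw [← hp.2]
      congr 1
      ext j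
      simp only [mem_filter, mem_erase, mem_univ, and_true]
      constructor
      · rintro ⟨h1, h2⟩
        rw [if_neg h1] at h2
        simpa using h2
      · intro hj
        have hji : j ≠ i := ne_of_mem_erase (hp.1 hj)
        refine ⟨hji, ?_⟩
        rw [if_neg hji]; simpa using hj
    · intro η _
      funext j
      by_cases h : j = i
      · subst h; simp
      · simp [h]
    · intro p hp
      simp only [coe_product, Set.mem_prod, mem_coe, mem_powersetCard, mem_univ, and_true] at hp
      refine Prod.ext ?_ (by simp)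
      ext j
      simp only [mem_filter, mem_erase, mem_univ, and_true]
      constructor
      · rintro ⟨h1, h2⟩
        rw [if_neg h1] at h2
        simpa using h2
      · intro hj
        have hji : j ≠ i := ne_of_mem_erase (hp.1 hj)
        refine ⟨hji, ?_⟩
        rw [if_neg hji]; simpa using hj
  rw [h2, card_product, card_powersetCard, hcard]
  unfold kap
  simp only [Fintype.card_bool, Finset.card_univ]
  push_cast
  rw [pow_succ, pow_mul]
  have : (4:ℝ) ^ k ≠ 0 := by positivity
  norm_num
  field_simp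

lemma hat_Fi_empty {k : ℕ} (hJ : Fintype.card J = 2 * k + 1) (i : J) : hat (Fi i) ∅ = kap k := by
  rw [hat_Fi_notMem hJ (notMem_empty i)]
  have : ∀ η : J → Bool, ind0 i η * chi ∅ η = ind0 i η := by
    intro η; simp [chi]
  simp_rw [this]
  rw [sum_ind0 hJ]
  field_simp

lemma hat_Fi_mem_pair {k : ℕ} (hJ : Fintype.card J = 2 * k + 1) {i j : J} (hij : i ≠ j) :
    hat (Fi i) {i, j} = kap k := by
  rw [← hat_Fi_empty hJ j]
  unfold hat
  congr 1
  refine sum_congr rfl (fun η _ => ?_)
  unfold Fi chi
  rw [prod_pair hij, prod_empty, mul_one]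
  have := sg_sq (η i)
  calc sg (η i) * mj η * (sg (η i) * sg (η j)) = (sg (η i) * sg (η i)) * (sg (η j) * mj η) := by ring
    _ = _ := by rw [this, one_mul]

end Pool.Agent.H380LD
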