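import Pool.Agent.Helper380.LD.Maj
set_option autoImplicit false
set_option linter.unusedSectionVars false
open Finset
open scoped BigOperators

namespace Pool.Agent.H380LD

variable {J : Type} [Fintype J] [DecidableEq J]

lemma sm_ne_zero {k : ℕ} (hJ : Fintype.card J = 2 * k + 1) (η : J → Bool) : sm η ≠ 0 := by
  rw [sm_eq, hJ]
  intro h
  have h1 : (2:ℝ) * ((univ.filter (fun j => η j = true)).card : ℝ) = 2 * k + 1 := by
    push_cast at h; linarith
  have h2 : 2 * (univ.filter (fun j => η j = true)).card = 2 * k + 1 := by exact_mod_cast h1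
  omega

lemma mj_fall {k : ℕ} (hJ : Fintype.card J = 2 * k + 1) (η : J → Bool) : mj (fall η) = - mj η := by
  unfold mj
  rw [sm_fall]
  have := sm_ne_zero hJ η
  rcases lt_or_gt_of_ne this with h | h
  · rw [if_pos (by linarith), if_neg (by linarith)]; norm_num
  · rw [if_neg (by linarith), if_pos (by linarith)]

lemma Fi_fall {k : ℕ} (hJ : Fintype.card J = 2 * k + 1) (i : J) (η : J → Bool) :
    Fi i (fall η) = Fi i η := by
  unfold Fi
  rw [mj_fall hJ]
  unfold fall
  rw [sg_not]; ring

lemma hat_Fi_odd {k : ℕ} (hJ : Fintype.card J = 2 * k + 1) (i : J) {S : Finset J} (hS : Odd S.card) :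
    hat (Fi i) S = 0 := by
  unfold hat
  have h1 : ∑ η, Fi i η * chi S η = - ∑ η, Fi i η * chi S η := by
    conv_lhs => rw [← sum_fall]
    rw [← sum_neg_distrib]
    refine sum_congr rfl (fun η _ => ?_)
    rw [Fi_fall hJ, chi_fall, hS.neg_one_pow]; ring
  have h2 : ∑ η, Fi i η * chi S η = 0 := by linarith
  rw [h2, zero_div]

lemma abs_Fi_le (i : J) (η : J → Bool) : |Fi i η| ≤ 1 := by
  unfold Fi mj
  rw [abs_mul, sg_abs]
  split_ifs <;> norm_num

/-- relabelling by a swap -/
def rl (σ : Equiv.Perm J) : (J → Bool) ≃ (J → Bool) := Equiv.arrowCongr σ (Equiv.refl Bool)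

lemma rl_apply (σ : Equiv.Perm J) (η : J → Bool) (j : J) : rl σ η j = η (σ.symm j) := rfl

lemma sm_rl (σ : Equiv.Perm J) (η : J → Bool) : sm (rl σ η) = sm η := by
  unfold sm
  simp_rw [rl_apply]
  exact Equiv.sum_comp σ.symm (fun j => sg (η j))

lemma ind0_rl (σ : Equiv.Perm J) {i : J} (hi : σ.symm i = i) (η : J → Bool) :
    ind0 i (rl σ η) = ind0 i η := by
  have : oth i (rl σ η) = oth i η := by
    have h1 := sm_oth i (rl σ η)
    have h2 := sm_oth i η
    rw [sm_rl, rl_apply, hi] at h1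
    linarith
  unfold ind0
  rw [this]

lemma hat_Fi_pair_notMem {k : ℕ} (hk : 1 ≤ k) (hJ : Fintype.card J = 2 * k + 1) {i a b : J}
    (hab : a ≠ b) (hai : a ≠ i) (hbi : b ≠ i) :
    hat (Fi i) {a, b} = - kap k / (2 * k - 1) := by
  have hi : i ∉ ({a, b} : Finset J) := by
    simp only [mem_insert, mem_singleton, not_or]
    exact ⟨fun h => hai h.symm, fun h => hbi h.symm⟩
  rw [hat_Fi_notMem hJ hi]
  set Q : J → ℝ := fun c => ∑ η : J → Bool, ind0 i η * (sg (η a) * sg (η c)) with hQ
  have h1 : ∑ η : J → Bool, ind0 i η * chi {a, b} η = Q b := by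
    refine sum_congr rfl (fun η _ => ?_)
    unfold chi
    rw [prod_pair hab]
  have h2 : ∀ c ∈ (univ.erase i).erase a, Q c = Q b := by
    intro c hc
    have hca : c ≠ a := ne_of_mem_erase hc
    have hci : c ≠ i := ne_of_mem_erase (mem_of_mem_erase hc)
    simp only [hQ]
    rw [← Equiv.sum_comp (rl (Equiv.swap b c)) (fun η : J → Bool => ind0 i η * (sg (η a) * sg (η c)))]
    refine sum_congr rfl (fun η _ => ?_)
    have e1 : (Equiv.swap b c).symm i = i := by
      rw [Equiv.symm_swap, Equiv.swap_apply_of_ne_of_ne hbi.symm hci.symm]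
    have e2 : (Equiv.swap b c).symm a = a := by
      rw [Equiv.symm_swap, Equiv.swap_apply_of_ne_of_ne hab hca.symm]
    have e3 : (Equiv.swap b c).symm c = b := by
      rw [Equiv.symm_swap, Equiv.swap_apply_right]
    rw [ind0_rl _ e1, rl_apply, rl_apply, e2, e3]
  have h3 : ∑ c ∈ (univ.erase i).erase a, Q c = - (2 ^ (2 * k + 1) * kap k) := by
    simp only [hQ]
    rw [sum_comm, ← sum_ind0 hJ i, ← sum_neg_distrib]
    refine sum_congr rfl (fun η _ => ?_)
    rw [← mul_sum, ← mul_sum]
    have hs : ∑ c ∈ (univ.erase i).erase a, sg (η c) = oth i η - sg (η a) := by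
      unfold oth
      rw [← sum_erase_add (univ.erase i) (fun c => sg (η c)) (mem_erase.2 ⟨hai, mem_univ a⟩)]
      ring
    rw [hs]
    unfold ind0
    split_ifs with h
    · rw [h]
      have := sg_sq (η a)
      linear_combination -this
    · ring
  rw [sum_congr rfl h2, sum_const] at h3
  have hcard : ((univ.erase i).erase a : Finset J).card = 2 * k - 1 := by
    rw [card_erase_of_mem (mem_erase.2 ⟨hai, mem_univ a⟩), card_erase_of_mem (mem_univ i),
      Finset.card_univ, hJ]; rfl
  rw [hcard, nsmul_eq_mul] at h3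
  have hc2 : ((2 * k - 1 : ℕ) : ℝ) = 2 * (k:ℝ) - 1 := by
    rw [Nat.cast_sub (by omega)]; push_cast; ring
  rw [hc2] at h3
  rw [h1]
  have hk' : (1:ℝ) ≤ k := by exact_mod_cast hk
  have hpos : (0:ℝ) < 2 * k - 1 := by linarith
  have hp2 : (0:ℝ) < 2 ^ (2 * k + 1) := by positivity
  rw [div_eq_div_iff hp2.ne' hpos.ne']
  linarith

/-! ### surplus formula -/
section surplus
variable {α ι : Type} [Fintype ι] [Nonempty ι] [DecidableEq α]

/-- sign pattern of the tuple `T` at coordinate `x` -/
noncomputable def pat (X : α → ι → ℝ) (T : J → α) (x : ι) : J → Bool :=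
  fun j => by classical exact decide (X (T j) x = 1)

omit [Fintype J] [DecidableEq J] [Fintype ι] [Nonempty ι] [DecidableEq α] in
lemma sg_pat {X : α → ι → ℝ} (h : Sg X) (T : J → α) (x : ι) (j : J) :
    sg (pat X T x j) = X (T j) x := by
  unfold pat sg
  rcases h (T j) x with h1 | h1
  · simp [h1]
  · simp [h1]; norm_num

/-- higher correlations of the tuple -/
noncomputable def RS (X : α → ι → ℝ) (T : J → α) (S : Finset J) : ℝ := 𝔼 x, ∏ j ∈ S, X (T j) x

/-- majority centre -/
noncomputable def ctr (X : α → ι → ℝ) (T : J → α) (x : ι) : Bool := by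
  classical exact decide (0 < sm (pat X T x))

omit [Fintype ι] [Nonempty ι] [DecidableEq J] [DecidableEq α] in
lemma sg_ctr (X : α → ι → ℝ) (T : J → α) (x : ι) : sg (ctr X T x) = mj (pat X T x) := by
  unfold ctr mj sg
  split_ifs with h1 h2 h2 <;> simp_all

omit [Nonempty ι] [DecidableEq α] in
lemma surplus {X : α → ι → ℝ} (h : Sg X) (T : J → α) (i : J) :
    𝔼 x, sg (ctr X T x) * X (T i) x = ∑ S : Finset J, hat (Fi i) S * RS X T S := by
  have h1 : ∀ x, sg (ctr X T x) * X (T i) x
      = ∑ S : Finset J, hat (Fi i) S * ∏ j ∈ S, X (T j) x := by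
    intro x
    rw [sg_ctr, ← sg_pat h T x i]
    have := fourier_inv (Fi i) (pat X T x)
    unfold Fi at this
    rw [mul_comm, this]
    refine sum_congr rfl (fun S _ => ?_)
    unfold chi
    congr 1
    exact prod_congr rfl (fun j _ => sg_pat h T x j)
  simp_rw [h1]
  rw [expect_sum_comm]
  refine sum_congr rfl (fun S _ => ?_)
  unfold RS
  rw [mul_expect]

lemma RS_empty (X : α → ι → ℝ) (T : J → α) : RS X T ∅ = 1 := by
  unfold RS; simp

lemma good_of_T {X : α → ι → ℝ} (h : Sg X) {V : Finset α} {k : ℕ} {θ : ℝ}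
    (hJ : Fintype.card J = 2 * k + 1) (T : J → α) (hT : Function.Injective T) (hV : ∀ j, T j ∈ V)
    (hs : ∀ i, kap k - θ ≤ ∑ S : Finset J, hat (Fi i) S * RS X T S) : Good X V k θ := by
  refine ⟨univ.image T, ?_, ?_, ctr X T, ?_⟩
  · intro c hc
    obtain ⟨j, _, rfl⟩ := mem_image.1 hc
    exact hV j
  · rw [card_image_of_injective _ hT, Finset.card_univ, hJ]
  · intro c hc
    obtain ⟨j, _, rfl⟩ := mem_image.1 hc
    rw [surplus h]
    exact hs j

/-- lower bound of the surplus when all nonempty even correlations outside `H` are small -/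
lemma surplus_ge {X : α → ι → ℝ} {k : ℕ} (hJ : Fintype.card J = 2 * k + 1) (T : J → α) (i : J)
    (H : Finset (Finset J)) (hH : ∅ ∉ H) (δ : ℝ) (hδ : 0 ≤ δ)
    (hS : ∀ S : Finset J, S.Nonempty → Even S.card → S ∉ H → |RS X T S| ≤ δ) :
    kap k + (∑ e ∈ H, hat (Fi i) e * RS X T e) - 2 ^ (2 * k + 1) * δ
      ≤ ∑ S : Finset J, hat (Fi i) S * RS X T S := by
  have h1 : ∀ S : Finset J, (if S = ∅ then kap k else 0) + (if S ∈ H then hat (Fi i) S * RS X T S else 0) - δ
      ≤ hat (Fi i) S * RS X T S := by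
    intro S
    by_cases hS0 : S = ∅
    · subst hS0
      rw [if_pos rfl, if_neg hH, hat_Fi_empty hJ, RS_empty]; linarith
    · rw [if_neg hS0]
      by_cases hSH : S ∈ H
      · rw [if_pos hSH]; linarith
      · rw [if_neg hSH]
        rcases Nat.even_or_odd S.card with he | ho
        · have h2 := hS S (nonempty_iff_ne_empty.2 hS0) he hSH
          have h3 := abs_hat_le (Fi i) (abs_Fi_le i) S
          have h4 : |hat (Fi i) S * RS X T S| ≤ 1 * δ := by
            rw [abs_mul]
            exact mul_le_mul h3 h2 (abs_nonneg _) (by norm_num)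
          have h5 := neg_abs_le (hat (Fi i) S * RS X T S)
          linarith
        · rw [hat_Fi_odd hJ i ho]; linarith
  have h2 := sum_le_sum (fun S (_ : S ∈ (univ : Finset (Finset J))) => h1 S)
  refine le_trans (le_of_eq ?_) h2
  rw [sum_sub_distrib, sum_add_distrib]
  simp only [sum_ite_eq', mem_univ, if_true, sum_const, nsmul_eq_mul, card_univ, Fintype.card_finset, hJ]
  rw [← sum_filter]
  have : univ.filter (fun S => S ∈ H) = H := by ext; simp
  rw [this]
  push_cast
  ring

lemma center_small {X : α → ι → ℝ} {k : ℕ} (hJ : Fintype.card J = 2 * k + 1) (T : J → α) (i : J)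
    (δ θ : ℝ) (hδ : 0 ≤ δ) (hθ : 2 ^ (2 * k + 1) * δ ≤ θ)
    (hS : ∀ S : Finset J, S.Nonempty → Even S.card → |RS X T S| ≤ δ) :
    kap k - θ ≤ ∑ S : Finset J, hat (Fi i) S * RS X T S := by
  have := surplus_ge hJ T i ∅ (by simp) δ hδ (fun S h1 h2 _ => hS S h1 h2)
  simp only [sum_empty, add_zero] at this
  linarith

/-- the centre estimate for the window lemma -/
lemma center_window {X : α → ι → ℝ} {k : ℕ} (hk : 2 ≤ k) (hJ : Fintype.card J = 2 * k + 1) (T : J → α)
    (i : J) (H : Finset (Finset J)) (t : ℝ) (ht : 0 < t)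
    (hpair : ∀ e ∈ H, ∃ a b, a ≠ b ∧ e = {a, b})
    (hcov : ∃ e ∈ H, i ∈ e) (hcount : (H.filter (fun e => i ∉ e)).card ≤ k)
    (hlow : ∀ e ∈ H, t ≤ RS X T e) (hup : ∀ e ∈ H, RS X T e ≤ 5 / 4 * t)
    (hS : ∀ S : Finset J, S.Nonempty → Even S.card → S ∉ H → |RS X T S| ≤ kap k / (6 * 2 ^ (2 * k + 1)) * t) :
    kap k ≤ ∑ S : Finset J, hat (Fi i) S * RS X T S := by
  have hκ := kap_pos k
  have hH0 : ∅ ∉ H := by
    intro h
    obtain ⟨a, b, _, h2⟩ := hpair _ h
    have : a ∈ (∅ : Finset J) := by rw [h2]; simp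
    simp at this
  have h1 := surplus_ge hJ T i H hH0 (kap k / (6 * 2 ^ (2 * k + 1)) * t) (by positivity) hS
  have hk' : (2:ℝ) ≤ k := by exact_mod_cast hk
  have hpos : (0:ℝ) < 2 * k - 1 := by linarith
  -- split high edges
  have h2 : kap k * t - kap k / (2 * k - 1) * (5 / 4 * t) * k ≤ ∑ e ∈ H, hat (Fi i) e * RS X T e := by
    rw [← sum_filter_add_sum_filter_not H (fun e => i ∈ e)]
    have hA : kap k * t ≤ ∑ e ∈ H.filter (fun e => i ∈ e), hat (Fi i) e * RS X T e := by
      obtain ⟨e0, he0, hie0⟩ := hcov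
      have hval : ∀ e ∈ H.filter (fun e => i ∈ e), kap k * t ≤ hat (Fi i) e * RS X T e := by
        intro e he
        rw [mem_filter] at he
        obtain ⟨a, b, hab, hE⟩ := hpair e he.1
        have hi : i = a ∨ i = b := by
          have := he.2; rw [hE] at this; simpa using this
        have hh : hat (Fi i) e = kap k := by
          rcases hi with rfl | rfl
          · rw [hE]; exact hat_Fi_mem_pair hJ hab
          · rw [hE, pair_comm]; exact hat_Fi_mem_pair hJ hab.symm
        rw [hh]
        exact mul_le_mul_of_nonneg_left (hlow e he.1) hκ.le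
      have hm : e0 ∈ H.filter (fun e => i ∈ e) := mem_filter.2 ⟨he0, hie0⟩
      refine (hval e0 hm).trans ?_
      exact single_le_sum (f := fun e => hat (Fi i) e * RS X T e)
        (fun e he => (by positivity : (0:ℝ) ≤ kap k * t).trans (hval e he)) hm
    have hB : - (kap k / (2 * k - 1) * (5 / 4 * t) * k)
        ≤ ∑ e ∈ H.filter (fun e => ¬ i ∈ e), hat (Fi i) e * RS X T e := by
      have hval : ∀ e ∈ H.filter (fun e => ¬ i ∈ e),
          - (kap k / (2 * k - 1) * (5 / 4 * t)) ≤ hat (Fi i) e * RS X T e := by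
        intro e he
        rw [mem_filter] at he
        obtain ⟨a, b, hab, hE⟩ := hpair e he.1
        have hi : a ≠ i ∧ b ≠ i := by
          have := he.2; rw [hE] at this
          simp only [mem_insert, mem_singleton, not_or] at this
          exact ⟨fun h => this.1 h.symm, fun h => this.2 h.symm⟩
        have hh : hat (Fi i) e = - kap k / (2 * k - 1) := by
          rw [hE]; exact hat_Fi_pair_notMem (by omega) hJ hab hi.1 hi.2
        rw [hh]
        have hu := hup e he.1
        have : kap k / (2 * k - 1) * RS X T e ≤ kap k / (2 * k - 1) * (5 / 4 * t) :=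
          mul_le_mul_of_nonneg_left hu (by positivity)
        have e1 : - kap k / (2 * k - 1) * RS X T e = - (kap k / (2 * k - 1) * RS X T e) := by ring
        rw [e1]; linarith
      have h3 := card_nsmul_le_sum _ _ _ hval
      refine le_trans ?_ h3
      rw [nsmul_eq_mul]
      have hc : ((H.filter (fun e => ¬ i ∈ e)).card : ℝ) ≤ k := by exact_mod_cast hcount
      have hw : 0 ≤ kap k / (2 * k - 1) * (5 / 4 * t) := by positivity
      nlinarith
    linarith
  have h3 : kap k / (2 * k - 1) * (5 / 4 * t) * k ≤ kap k * t * (5 / 6) := by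
    have : kap k / (2 * k - 1) * (5 / 4 * t) * k = kap k * t * (5 / 4) * (k / (2 * k - 1)) := by
      field_simp
    rw [this]
    have h4 : (k:ℝ) / (2 * k - 1) ≤ 2 / 3 := by
      rw [div_le_div_iff₀ hpos (by norm_num)]; linarith
    have hw : 0 ≤ kap k * t * (5 / 4) := by positivity
    nlinarith
  have h5 : (2:ℝ) ^ (2 * k + 1) * (kap k / (6 * 2 ^ (2 * k + 1)) * t) = kap k * t / 6 := by
    have : (2:ℝ) ^ (2 * k + 1) ≠ 0 := by positivity
    field_simp
  rw [h5] at h1
  nlinarith

end surplus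

end Pool.Agent.H380LD
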