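import Pool.Agent.Helper380.LD.Maj2
set_option autoImplicit false
set_option linter.unusedSectionVars false
set_option linter.unusedVariables false
open Finset
open scoped BigOperators

namespace Pool.Agent.H380LD

section win
variable {α ι : Type} [DecidableEq α] [Fintype ι] [Nonempty ι]

/-- conditional factor -/
def pk (r : Bool) (a : ℝ) : ℝ := if r then a else 1

@[simp] lemma pk_true (a : ℝ) : pk true a = a := rfl
@[simp] lemma pk_false (a : ℝ) : pk false a = 1 := rfl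

lemma abs_pk_le (r : Bool) (a : ℝ) (h : |a| ≤ 1) : |pk r a| ≤ 1 := by
  cases r
  · simp
  · simpa using h

/-- kernel of a single word -/
def KK (X : α → ι → ℝ) (x y : ι) (c : α) : ℝ := X c x * X c y

/-- blocks: a centre and two leaves -/
abbrev Blk (α : Type) := (_ : α) × (α × α)

/-- set of admissible blocks -/
def BB (Cen : Finset α) (N : α → Finset α) : Finset (Blk α) := Cen.sigma (fun v => N v ×ˢ N v)

/-- block weight -/
noncomputable def ww (Cen : Finset α) (N : α → Finset α) (b : Blk α) : ℝ :=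
  (Cen.card : ℝ)⁻¹ * ((N b.1).card : ℝ)⁻¹ * ((N b.1).card : ℝ)⁻¹

omit [Fintype ι] [Nonempty ι] in
lemma blk_sum (Cen : Finset α) (N : α → Finset α) (f g h : α → ℝ) :
    ∑ b ∈ BB Cen N, ww Cen N b * (f b.1 * g b.2.1 * h b.2.2)
      = 𝔼 v ∈ Cen, f v * (𝔼 z ∈ N v, g z) * (𝔼 z ∈ N v, h z) := by
  unfold BB ww
  rw [sum_sigma, expect_eq_sum_div_card, sum_div]
  refine sum_congr rfl (fun v _ => ?_)
  rw [sum_product]
  simp only
  rw [expect_eq_sum_div_card, expect_eq_sum_div_card]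
  have : ∑ x ∈ N v, ∑ y ∈ N v, (Cen.card : ℝ)⁻¹ * ((N v).card : ℝ)⁻¹ * ((N v).card : ℝ)⁻¹ * (f v * g x * h y)
      = ((Cen.card : ℝ)⁻¹ * ((N v).card : ℝ)⁻¹ * ((N v).card : ℝ)⁻¹ * f v) * ((∑ x ∈ N v, g x) * (∑ y ∈ N v, h y)) := by
    rw [sum_mul_sum, mul_sum]
    refine sum_congr rfl (fun x _ => ?_)
    rw [mul_sum]
    refine sum_congr rfl (fun y _ => ?_)
    ring
  rw [this]
  ring

/-- block kernel -/
noncomputable def gg (X : α → ι → ℝ) (Cen : Finset α) (N : α → Finset α) (r0 r1 r2 : Bool) (x y : ι) : ℝ :=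
  𝔼 v ∈ Cen, pk r0 (KK X x y v) * (𝔼 z ∈ N v, pk r1 (KK X x y z)) * (𝔼 z ∈ N v, pk r2 (KK X x y z))

lemma abs_KK_le {X : α → ι → ℝ} (h : Sg X) (x y : ι) (c : α) : |KK X x y c| ≤ 1 := by
  unfold KK
  rw [abs_mul, h.abs, h.abs]; norm_num

omit [Fintype ι] [Nonempty ι] in
lemma expect_pk {X : α → ι → ℝ} (x y : ι) (W : Finset α) (hW : W.Nonempty) (r : Bool) :
    (𝔼 z ∈ W, pk r (KK X x y z)) = pk r (GG X W x y) := by
  cases r
  · simp [expect_const hW]
  · rfl

lemma gg_eq {X : α → ι → ℝ} (Cen : Finset α) (N : α → Finset α) (hN : ∀ v ∈ Cen, (N v).Nonempty)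
    (r0 r1 r2 : Bool) (x y : ι) :
    gg X Cen N r0 r1 r2 x y
      = 𝔼 v ∈ Cen, pk r0 (KK X x y v) * pk r1 (GG X (N v) x y) * pk r2 (GG X (N v) x y) := by
  unfold gg
  refine expect_congr rfl (fun v hv => ?_)
  rw [expect_pk x y (N v) (hN v hv), expect_pk x y (N v) (hN v hv)]

lemma abs_gg_le {X : α → ι → ℝ} (h : Sg X) (Cen : Finset α) (hCen : Cen.Nonempty) (N : α → Finset α)
    (hN : ∀ v ∈ Cen, (N v).Nonempty)
    (r0 r1 r2 : Bool) (x y : ι) : |gg X Cen N r0 r1 r2 x y| ≤ 1 := by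
  rw [gg_eq Cen N hN]
  refine (abs_expect_le _ _).trans ?_
  refine expect_le hCen (fun v hv => ?_)
  rw [abs_mul, abs_mul]
  have h1 := abs_pk_le r0 _ (abs_KK_le h x y v)
  have h2 := abs_pk_le r1 _ (abs_GG_le h (N v) x y)
  have h3 := abs_pk_le r2 _ (abs_GG_le h (N v) x y)
  have h4 : |pk r0 (KK X x y v)| * |pk r1 (GG X (N v) x y)| ≤ 1 * 1 :=
    mul_le_mul h1 h2 (abs_nonneg _) (by norm_num)
  have h5 := mul_le_mul h4 h3 (abs_nonneg _) (by norm_num)
  linarith

/-- second moment of a nontrivial block kernel -/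
lemma gg_sq {X : α → ι → ℝ} (h : Sg X) (Cen : Finset α) (N : α → Finset α)
    (hCen : Cen.Nonempty) (hN : ∀ v ∈ Cen, (N v).Nonempty) (b : ℝ)
    (hC : MM X Cen ≤ b ^ 2) (hNb : ∀ v ∈ Cen, MM X (N v) ≤ b ^ 2)
    (r0 r1 r2 : Bool) (hr : (r0 || r1 || r2) = true) :
    𝔼 x, 𝔼 y, (gg X Cen N r0 r1 r2 x y) ^ 2 ≤ b ^ 2 := by
  by_cases hlf : (r1 || r2) = true
  · have h1 : ∀ x y, (gg X Cen N r0 r1 r2 x y) ^ 2 ≤ 𝔼 v ∈ Cen, (GG X (N v) x y) ^ 2 := by
      intro x y
      rw [gg_eq Cen N hN]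
      refine (jensen_sq _ _).trans ?_
      refine expect_le_expect (fun v hv => ?_)
      have hK := abs_pk_le r0 _ (abs_KK_le h x y v)
      have hG := abs_GG_le h (N v) x y
      rw [mul_pow, mul_pow]
      have hK2 : pk r0 (KK X x y v) ^ 2 ≤ 1 := by
        rw [← sq_abs]; exact pow_le_one₀ (abs_nonneg _) hK
      have hG2 : GG X (N v) x y ^ 2 ≤ 1 := by
        rw [← sq_abs]; exact pow_le_one₀ (abs_nonneg _) hG
      have hG0 := sq_nonneg (GG X (N v) x y)
      have hK0 := sq_nonneg (pk r0 (KK X x y v))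
      cases r1 <;> cases r2 <;> simp at hlf ⊢
      · nlinarith
      · nlinarith
      · nlinarith [mul_nonneg hK0 hG0]
    calc 𝔼 x, 𝔼 y, (gg X Cen N r0 r1 r2 x y) ^ 2 ≤ 𝔼 x, 𝔼 y, 𝔼 v ∈ Cen, (GG X (N v) x y) ^ 2 :=
          expect_le_expect (fun x _ => expect_le_expect (fun y _ => h1 x y))
      _ = 𝔼 v ∈ Cen, MM X (N v) := by
          unfold MM
          rw [expect_congr rfl (fun x _ => expect_comm _ _ _)]
          rw [expect_comm]
      _ ≤ b ^ 2 := expect_le hCen hNb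
  · have h1 : r1 = false ∧ r2 = false := by
      cases r1 <;> cases r2 <;> simp_all
    obtain ⟨rfl, rfl⟩ := h1
    have h0 : r0 = true := by simpa using hr
    subst h0
    refine le_trans (le_of_eq ?_) hC
    unfold MM
    refine expect_congr rfl (fun x _ => expect_congr rfl (fun y _ => ?_))
    congr 1
    rw [gg_eq Cen N hN]
    simp only [pk_true, pk_false, mul_one]
    rfl

/-- index set of the tuple -/
abbrev JJ (k : ℕ) := Option (Fin k × Bool)

lemma card_JJ (k : ℕ) : Fintype.card (JJ k) = 2 * k + 1 := by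
  simp [JJ]; ring

/-- the tuple of a family of blocks -/
def TT {k : ℕ} [NeZero k] (p : Fin k → Blk α) : JJ k → α
  | none => (p 0).2.2
  | some (l, false) => (p l).1
  | some (l, true) => (p l).2.1

/-- flags of `S` -/
def fl0 {k : ℕ} (S : Finset (JJ k)) (l : Fin k) : Bool := decide (some (l, false) ∈ S)
def fl1 {k : ℕ} (S : Finset (JJ k)) (l : Fin k) : Bool := decide (some (l, true) ∈ S)
def fl2 {k : ℕ} [NeZero k] (S : Finset (JJ k)) (l : Fin k) : Bool := decide (l = 0 ∧ none ∈ S)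

lemma prod_TT {k : ℕ} [NeZero k] (p : Fin k → Blk α) (S : Finset (JJ k)) (f : α → ℝ) :
    ∏ j ∈ S, f (TT p j)
      = ∏ l, (pk (fl0 S l) (f (p l).1) * pk (fl1 S l) (f (p l).2.1) * pk (fl2 S l) (f (p l).2.2)) := by
  have h00 : ∏ j ∈ S, f (TT p j) = ∏ j, (if j ∈ S then f (TT p j) else 1) := by
    rw [prod_ite_mem, univ_inter]
  rw [h00, Fintype.prod_option, Fintype.prod_prod_type]
  simp_rw [Fintype.prod_bool]
  rw [prod_mul_distrib, prod_mul_distrib]
  have h2 : ∏ l, pk (fl2 S l) (f (p l).2.2) = (if none ∈ S then f (TT p none) else 1) := by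
    rw [prod_eq_single (0 : Fin k)]
    · unfold fl2 pk TT
      by_cases h : none ∈ S <;> simp [h]
    · intro l _ hl
      unfold fl2 pk
      simp [hl]
    · simp
  rw [h2]
  have h0 : ∀ l, pk (fl0 S l) (f (p l).1) = (if some (l, false) ∈ S then f (TT p (some (l, false))) else 1) := by
    intro l
    unfold fl0 pk TT
    by_cases h : some (l, false) ∈ S <;> simp [h]
  have h1 : ∀ l, pk (fl1 S l) (f (p l).2.1) = (if some (l, true) ∈ S then f (TT p (some (l, true))) else 1) := by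
    intro l
    unfold fl1 pk TT
    by_cases h : some (l, true) ∈ S <;> simp [h]
  simp_rw [h0, h1]
  rw [prod_mul_distrib]
  ring

/-- weighted average over families of blocks -/
noncomputable def EE (Cen : Finset α) (N : α → Finset α) {k : ℕ} (Φ : (Fin k → Blk α) → ℝ) : ℝ :=
  ∑ p ∈ Fintype.piFinset (fun _ : Fin k => BB Cen N), (∏ l, ww Cen N (p l)) * Φ p

omit [Fintype ι] [Nonempty ι] in
lemma EE_prod (Cen : Finset α) (N : α → Finset α) {k : ℕ} (φ : Fin k → Blk α → ℝ) :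
    EE Cen N (fun p => ∏ l, φ l (p l)) = ∏ l, ∑ b ∈ BB Cen N, ww Cen N b * φ l b := by
  unfold EE
  rw [prod_univ_sum]
  refine sum_congr rfl (fun p _ => ?_)
  rw [prod_mul_distrib]

omit [Fintype ι] [Nonempty ι] in
lemma EE_one (Cen : Finset α) (N : α → Finset α) (hCen : Cen.Nonempty) (hN : ∀ v ∈ Cen, (N v).Nonempty)
    (k : ℕ) : EE Cen N (fun _ : Fin k → Blk α => (1:ℝ)) = 1 := by
  have h := EE_prod Cen N (k := k) (fun _ _ => (1:ℝ))
  have h1 : ∑ b ∈ BB Cen N, ww Cen N b * (1:ℝ) = 1 := by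
    have := blk_sum Cen N (fun _ => 1) (fun _ => 1) (fun _ => 1)
    simp only [mul_one] at this ⊢
    rw [this]
    have h3 : ∀ v ∈ Cen, (1 * 𝔼 z ∈ N v, (1:ℝ)) * 𝔼 z ∈ N v, (1:ℝ) = 1 := by
      intro v hv
      rw [expect_const (hN v hv)]; norm_num
    rw [expect_congr rfl h3, expect_const hCen]
  simp only [prod_const_one] at h
  rw [h]
  simp_rw [h1]
  simp

lemma EE_RS {X : α → ι → ℝ} (Cen : Finset α) (N : α → Finset α) {k : ℕ} [NeZero k] (S : Finset (JJ k)) :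
    EE Cen N (fun p => (RS X (TT p) S) ^ 2)
      = 𝔼 x, 𝔼 y, ∏ l, gg X Cen N (fl0 S l) (fl1 S l) (fl2 S l) x y := by
  have h1 : ∀ p : Fin k → Blk α, (RS X (TT p) S) ^ 2 = 𝔼 x, 𝔼 y, ∏ l,
      (pk (fl0 S l) (KK X x y (p l).1) * pk (fl1 S l) (KK X x y (p l).2.1) * pk (fl2 S l) (KK X x y (p l).2.2)) := by
    intro p
    unfold RS
    rw [sq, expect_mul_expect]
    refine expect_congr rfl (fun x _ => expect_congr rfl (fun y _ => ?_))
    rw [← prod_mul_distrib]
    exact prod_TT p S (fun c => KK X x y c)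
  unfold EE
  simp_rw [h1, mul_expect]
  rw [← expect_sum_comm]
  refine expect_congr rfl (fun x _ => ?_)
  rw [← expect_sum_comm]
  refine expect_congr rfl (fun y _ => ?_)
  have h2 := EE_prod Cen N (k := k) (fun l b => pk (fl0 S l) (KK X x y b.1) * pk (fl1 S l) (KK X x y b.2.1) * pk (fl2 S l) (KK X x y b.2.2))
  unfold EE at h2
  rw [h2]
  refine prod_congr rfl (fun l _ => ?_)
  exact blk_sum Cen N (fun c => pk (fl0 S l) (KK X x y c)) (fun c => pk (fl1 S l) (KK X x y c)) (fun c => pk (fl2 S l) (KK X x y c))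

end win

end Pool.Agent.H380LD
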