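import Pool.Agent.Helper380.LD.Win
set_option autoImplicit false
set_option linter.unusedSectionVars false
set_option linter.unusedVariables false
open Finset
open scoped BigOperators

namespace Pool.Agent.H380LD

section win2
variable {α ι : Type} [DecidableEq α] [Fintype ι] [Nonempty ι]

/-- high edges -/
def HH (k : ℕ) [NeZero k] : Finset (Finset (JJ k)) :=
  (univ.image (fun l : Fin k => ({some (l, false), some (l, true)} : Finset (JJ k))))
    ∪ {({some (0, false), none} : Finset (JJ k))}

lemma HH_card (k : ℕ) [NeZero k] : (HH k).card ≤ k + 1 := by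
  unfold HH
  refine (card_union_le _ _).trans ?_
  have : (univ.image (fun l : Fin k => ({some (l, false), some (l, true)} : Finset (JJ k)))).card ≤ k := by
    refine card_image_le.trans ?_
    simp
  simp only [card_singleton]
  omega

lemma mem_HH_1 {k : ℕ} [NeZero k] (l : Fin k) : ({some (l, false), some (l, true)} : Finset (JJ k)) ∈ HH k := by
  unfold HH
  exact mem_union_left _ (mem_image_of_mem _ (mem_univ l))

lemma mem_HH_2 {k : ℕ} [NeZero k] : ({some (0, false), none} : Finset (JJ k)) ∈ HH k := by
  unfold HH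
  exact mem_union_right _ (mem_singleton_self _)

lemma gg_false {X : α → ι → ℝ} (Cen : Finset α) (N : α → Finset α)
    (hCen : Cen.Nonempty) (hN : ∀ v ∈ Cen, (N v).Nonempty) (x y : ι) :
    gg X Cen N false false false x y = 1 := by
  rw [gg_eq Cen N hN]
  simp [expect_const hCen]

/-- second moment of the generalised correlation -/
lemma RS_bound {X : α → ι → ℝ} (h : Sg X) (Cen : Finset α) (N : α → Finset α)
    (hCen : Cen.Nonempty) (hN : ∀ v ∈ Cen, (N v).Nonempty) (b : ℝ)
    (hC : MM X Cen ≤ b ^ 2) (hNb : ∀ v ∈ Cen, MM X (N v) ≤ b ^ 2)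
    {k : ℕ} [NeZero k] (S : Finset (JJ k)) (hS : S.Nonempty) (he : Even S.card) (hSH : S ∉ HH k) :
    EE Cen N (fun p => (RS X (TT p) S) ^ 2) ≤ b ^ 2 := by
  rw [EE_RS]
  have hsq := gg_sq h Cen N hCen hN b hC hNb
  have hle := abs_gg_le h Cen hCen N hN
  by_cases h2 : ∃ l1 l2, l1 ≠ l2 ∧ (fl0 S l1 || fl1 S l1 || fl2 S l1) = true ∧ (fl0 S l2 || fl1 S l2 || fl2 S l2) = true
  · obtain ⟨l1, l2, hne, hf1, hf2⟩ := h2
    have hpt : ∀ x y, ∏ l, gg X Cen N (fl0 S l) (fl1 S l) (fl2 S l) x y
        ≤ ((gg X Cen N (fl0 S l1) (fl1 S l1) (fl2 S l1) x y) ^ 2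
          + (gg X Cen N (fl0 S l2) (fl1 S l2) (fl2 S l2) x y) ^ 2) / 2 := by
      intro x y
      refine (le_abs_self _).trans ?_
      rw [abs_prod, ← prod_mul_prod_compl ({l1, l2} : Finset (Fin k)), prod_pair hne]
      have h3 : ∏ l ∈ ({l1, l2} : Finset (Fin k))ᶜ, |gg X Cen N (fl0 S l) (fl1 S l) (fl2 S l) x y| ≤ 1 :=
        prod_le_one (fun _ _ => abs_nonneg _) (fun l _ => hle _ _ _ x y)
      have h4 : (0:ℝ) ≤ |gg X Cen N (fl0 S l1) (fl1 S l1) (fl2 S l1) x y| * |gg X Cen N (fl0 S l2) (fl1 S l2) (fl2 S l2) x y| := by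
        positivity
      have h5 := mul_le_mul_of_nonneg_left h3 h4
      rw [mul_one] at h5
      refine h5.trans ?_
      have h6 := sq_abs (gg X Cen N (fl0 S l1) (fl1 S l1) (fl2 S l1) x y)
      have h7 := sq_abs (gg X Cen N (fl0 S l2) (fl1 S l2) (fl2 S l2) x y)
      rw [← h6, ← h7]
      nlinarith [sq_nonneg (|gg X Cen N (fl0 S l1) (fl1 S l1) (fl2 S l1) x y| - |gg X Cen N (fl0 S l2) (fl1 S l2) (fl2 S l2) x y|)]
    have hA := hsq _ _ _ hf1
    have hB := hsq _ _ _ hf2
    calc 𝔼 x, 𝔼 y, ∏ l, gg X Cen N (fl0 S l) (fl1 S l) (fl2 S l) x y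
        ≤ 𝔼 x, 𝔼 y, ((gg X Cen N (fl0 S l1) (fl1 S l1) (fl2 S l1) x y) ^ 2
          + (gg X Cen N (fl0 S l2) (fl1 S l2) (fl2 S l2) x y) ^ 2) / 2 :=
          expect_le_expect (fun x _ => expect_le_expect (fun y _ => hpt x y))
      _ = ((𝔼 x, 𝔼 y, (gg X Cen N (fl0 S l1) (fl1 S l1) (fl2 S l1) x y) ^ 2)
          + 𝔼 x, 𝔼 y, (gg X Cen N (fl0 S l2) (fl1 S l2) (fl2 S l2) x y) ^ 2) / 2 := by
          simp_rw [← expect_div, expect_add_distrib]
      _ ≤ b ^ 2 := by linarith
  · push Not at h2
    -- a unique active block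
    have hact : ∃ l0, (fl0 S l0 || fl1 S l0 || fl2 S l0) = true := by
      obtain ⟨j, hj⟩ := hS
      rcases j with _ | ⟨l, bb⟩
      · exact ⟨0, by simp [fl2, hj]⟩
      · cases bb
        · exact ⟨l, by simp [fl0, hj]⟩
        · exact ⟨l, by simp [fl1, hj]⟩
    obtain ⟨l0, hl0⟩ := hact
    have hoth : ∀ l, l ≠ l0 → (fl0 S l || fl1 S l || fl2 S l) = false := by
      intro l hl
      by_contra hc
      have h3 : (fl0 S l || fl1 S l || fl2 S l) = true := (Bool.not_eq_false _).mp hc
      exact h2 l l0 hl h3 hl0
    have hmem : ∀ l bb, some (l, bb) ∈ S → l = l0 := by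
      intro l bb hl
      by_contra hne
      have := hoth l hne
      cases bb <;> simp [fl0, fl1, hl] at this
    have hnone : none ∈ S → l0 = 0 := by
      intro hn
      by_contra hne
      have := hoth 0 (fun h => hne h.symm)
      simp [fl2, hn] at this
    have hprod : ∀ x y, ∏ l, gg X Cen N (fl0 S l) (fl1 S l) (fl2 S l) x y
        = gg X Cen N (fl0 S l0) (fl1 S l0) (fl2 S l0) x y := by
      intro x y
      refine prod_eq_single l0 ?_ (by simp)
      intro l _ hl
      have := hoth l hl
      simp only [Bool.or_eq_false_iff] at this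
      rw [this.1.1, this.1.2, this.2]
      exact gg_false Cen N hCen hN x y
    simp_rw [hprod]
    have hSU : S = ({some (l0, false), some (l0, true), none} : Finset (JJ k)).filter (· ∈ S) := by
      ext j
      rw [mem_filter]
      constructor
      · intro hj
        refine ⟨?_, hj⟩
        rcases j with _ | ⟨l, bb⟩
        · simp
        · have := hmem l bb hj
          subst this
          cases bb <;> simp
      · exact fun hj => hj.2
    by_cases a0 : some (l0, false) ∈ S <;> by_cases a1 : some (l0, true) ∈ S <;> by_cases a2 : none ∈ S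
    · exfalso
      have h3 : S.card = 3 := by
        rw [hSU]
        simp [filter_insert, filter_singleton, a0, a1, a2]
      rw [h3] at he
      exact absurd he (by decide)
    · exfalso
      apply hSH
      have : S = {some (l0, false), some (l0, true)} := by
        rw [hSU]
        simp [filter_insert, filter_singleton, a0, a1, a2]
      rw [this]
      exact mem_HH_1 l0
    · exfalso
      apply hSH
      have h4 := hnone a2
      subst h4
      have : S = {some (0, false), none} := by
        rw [hSU]
        simp [filter_insert, filter_singleton, a0, a1, a2]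
      rw [this]
      exact mem_HH_2
    · exfalso
      have h3 : S.card = 1 := by
        rw [hSU]
        simp [filter_insert, filter_singleton, a0, a1, a2]
      rw [h3] at he
      exact absurd he (by decide)
    · have e0 : fl0 S l0 = false := by simp [fl0, a0]
      have e1 : fl1 S l0 = true := by simp [fl1, a1]
      have e2 : fl2 S l0 = true := by simp [fl2, a2, hnone a2]
      rw [e0, e1, e2]
      have h3 : ∀ x y, gg X Cen N false true true x y = 𝔼 v ∈ Cen, (GG X (N v) x y) ^ 2 := by
        intro x y
        rw [gg_eq Cen N hN]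
        refine expect_congr rfl (fun v _ => ?_)
        simp [sq]
      simp_rw [h3]
      rw [expect_congr rfl (fun x _ => expect_comm _ _ _), expect_comm]
      exact expect_le hCen hNb
    · exfalso
      have h3 : S.card = 1 := by
        rw [hSU]
        simp [filter_insert, filter_singleton, a0, a1, a2]
      rw [h3] at he
      exact absurd he (by decide)
    · exfalso
      have h3 : S.card = 1 := by
        rw [hSU]
        simp [filter_insert, filter_singleton, a0, a1, a2]
      rw [h3] at he
      exact absurd he (by decide)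
    · exfalso
      have h3 : S = ∅ := by
        rw [hSU]
        simp [filter_insert, filter_singleton, a0, a1, a2]
      rw [h3] at hS
      exact absurd hS (by simp)

end win2

end Pool.Agent.H380LD
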