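import Pool.Agent.Helper380.LD.Win2
import Pool.Agent.Helper380.LD.Asm
set_option autoImplicit false
set_option linter.unusedSectionVars false
set_option linter.unusedVariables false
open Finset
open scoped BigOperators

namespace Pool.Agent.H380LD

section win3
variable {α ι : Type} [DecidableEq α] [Fintype ι] [Nonempty ι]

lemma kap_le_one (k : ℕ) : kap k ≤ 1 := by
  unfold kap
  rw [div_le_one (by positivity)]
  have : Nat.choose (2 * k) k ≤ 2 ^ (2 * k) := Nat.choose_le_two_pow _ _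
  have h : (Nat.choose (2 * k) k : ℝ) ≤ 2 ^ (2 * k) := by exact_mod_cast this
  rw [pow_mul] at h
  norm_num at h ⊢
  exact h

lemma tri (X : α → ι → ℝ) (h : Sg X) (v a c : α) : rho X v a + rho X v c - 1 ≤ rho X a c := by
  unfold rho
  have h1 : (𝔼 x, X v x * X a x) + (𝔼 x, X v x * X c x) - 1 = 𝔼 x, (X v x * X a x + X v x * X c x - 1) := by
    rw [expect_sub_distrib, expect_add_distrib, expect_const univ_nonempty]
  rw [h1]
  refine expect_le_expect (fun x _ => ?_)
  rcases h v x with h2 | h2 <;> rcases h a x with h3 | h3 <;> rcases h c x with h4 | h4 <;>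
    rw [h2, h3, h4] <;> norm_num

lemma RS_pair {J : Type} [Fintype J] [DecidableEq J] (X : α → ι → ℝ) (T : J → α) {a c : J} (hac : a ≠ c) :
    RS X T {a, c} = rho X (T a) (T c) := by
  unfold RS rho
  exact expect_congr rfl (fun x _ => prod_pair hac)

omit [DecidableEq α] [Fintype ι] [Nonempty ι] in
lemma ww_nonneg (Cen : Finset α) (N : α → Finset α) (b : Blk α) : 0 ≤ ww Cen N b := by
  have h1 : (0:ℝ) ≤ (Cen.card : ℝ)⁻¹ := by positivity
  have h2 : (0:ℝ) ≤ ((N b.1).card : ℝ)⁻¹ := by positivity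
  exact mul_nonneg (mul_nonneg h1 h2) h2

theorem window (X : α → ι → ℝ) (hX : Sg X) (V : Finset α) (k : ℕ) (hk : 2 ≤ k) (t p b : ℝ)
    (ht : 0 < t) (hp : 0 < p)
    (hpV : p ≤ 𝔼 c ∈ V, 𝔼 d ∈ V, (if t ≤ rho X c d ∧ rho X c d < 5/4 * t then (1:ℝ) else 0))
    (hb : ∀ W ⊆ V, p / 2 * (V.card : ℝ) ≤ W.card → MM X W ≤ b ^ 2)
    (hC : (2:ℝ) ^ (2*k+1) * b ^ 2 < (kap k / (6 * 2 ^ (2*k+1)) * t) ^ 2) : Good X V k 0 := by
  have : NeZero k := ⟨by omega⟩
  have hVn : V.Nonempty := by
    by_contra h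
    rw [not_nonempty_iff_eq_empty] at h
    subst h
    simp at hpV; linarith
  have hn : (0:ℝ) < V.card := by exact_mod_cast hVn.card_pos
  obtain ⟨N, hNd⟩ : ∃ N : α → Finset α, N = fun v => V.filter (fun x => t ≤ rho X v x ∧ rho X v x < 5/4 * t) := ⟨_, rfl⟩
  obtain ⟨Cen, hCend⟩ : ∃ Cen : Finset α, Cen = V.filter (fun v => p / 2 * (V.card : ℝ) ≤ (N v).card) := ⟨_, rfl⟩
  have hNV : ∀ v, N v ⊆ V := fun v => by rw [hNd]; exact filter_subset _ _
  have hCV : Cen ⊆ V := by rw [hCend]; exact filter_subset _ _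
  have hNw : ∀ v x, x ∈ N v → t ≤ rho X v x ∧ rho X v x < 5/4 * t := by
    intro v x hx
    rw [hNd] at hx
    exact (mem_filter.1 hx).2
  have hNc : ∀ v ∈ Cen, p / 2 * (V.card : ℝ) ≤ (N v).card := by
    intro v hv
    rw [hCend] at hv
    exact (mem_filter.1 hv).2
  have hpos : 0 < p / 2 * (V.card : ℝ) := by positivity
  have hNne : ∀ v ∈ Cen, (N v).Nonempty := by
    intro v hv
    rw [← card_pos]
    have := hpos.trans_le (hNc v hv)
    exact_mod_cast this
  have hcount : p / 2 * (V.card : ℝ) ≤ Cen.card := by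
    have h1 : ∀ c, 𝔼 d ∈ V, (if t ≤ rho X c d ∧ rho X c d < 5/4 * t then (1:ℝ) else 0) = ((N c).card : ℝ) / V.card := by
      intro c
      rw [expect_eq_sum_div_card, sum_boole, hNd]
    simp_rw [h1] at hpV
    rw [expect_eq_sum_div_card, le_div_iff₀ hn] at hpV
    have h2 : ∀ c ∈ V, ((N c).card : ℝ) / V.card ≤ p / 2 + (if p / 2 * (V.card : ℝ) ≤ (N c).card then (1:ℝ) else 0) := by
      intro c _
      split_ifs with hc
      · have h3 : ((N c).card : ℝ) ≤ V.card := by exact_mod_cast card_le_card (hNV c)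
        have h4 : ((N c).card : ℝ) / V.card ≤ 1 := by rw [div_le_one hn]; exact h3
        linarith
      · rw [not_le] at hc
        have h4 : ((N c).card : ℝ) / V.card ≤ p / 2 := by rw [div_le_iff₀ hn]; linarith
        linarith
    have h3 := sum_le_sum h2
    rw [sum_add_distrib, sum_const, nsmul_eq_mul, sum_boole, ← hCend] at h3
    linarith
  have hCne : Cen.Nonempty := by
    rw [← card_pos]
    have := hpos.trans_le hcount
    exact_mod_cast this
  have hCM : MM X Cen ≤ b ^ 2 := hb Cen hCV hcount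
  have hNM : ∀ v ∈ Cen, MM X (N v) ≤ b ^ 2 := fun v hv => hb _ (hNV v) (hNc v hv)
  obtain ⟨δ, hδ⟩ : ∃ δ : ℝ, δ = kap k / (6 * 2 ^ (2*k+1)) := ⟨_, rfl⟩
  have hκ := kap_pos k
  have hκ1 := kap_le_one k
  have hδ0 : 0 < δ := by rw [hδ]; positivity
  have hδ1 : δ ≤ 1 / 6 := by
    rw [hδ, div_le_div_iff₀ (by positivity) (by norm_num)]
    have : (1:ℝ) ≤ 2 ^ (2*k+1) := one_le_pow₀ (by norm_num)
    linarith
  rw [← hδ] at hC
  obtain ⟨bad, hbad⟩ : ∃ bad : Finset (Finset (JJ k)), bad = (univ : Finset (Finset (JJ k))).filter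
    (fun S => S.Nonempty ∧ Even S.card ∧ S ∉ HH k) := ⟨_, rfl⟩
  have hEbad : EE Cen N (fun q : Fin k → Blk α => ∑ S ∈ bad, (RS X (TT q) S) ^ 2) ≤ 2 ^ (2*k+1) * b ^ 2 := by
    have h1 : EE Cen N (fun q : Fin k → Blk α => ∑ S ∈ bad, (RS X (TT q) S) ^ 2)
        = ∑ S ∈ bad, EE Cen N (fun q : Fin k → Blk α => (RS X (TT q) S) ^ 2) := by
      unfold EE
      simp_rw [mul_sum]
      rw [sum_comm]
    rw [h1]
    have h2 : ∑ S ∈ bad, EE Cen N (fun q : Fin k → Blk α => (RS X (TT q) S) ^ 2) ≤ ∑ S ∈ bad, b ^ 2 :=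
      sum_le_sum (fun S hS => by
        rw [hbad, mem_filter] at hS
        exact RS_bound hX Cen N hCne hNne b hCM hNM S hS.2.1 hS.2.2.1 hS.2.2.2)
    refine h2.trans ?_
    rw [sum_const, nsmul_eq_mul]
    have h3 : (bad.card : ℝ) ≤ 2 ^ (2*k+1) := by
      have : bad.card ≤ 2 ^ (2*k+1) := by
        refine (card_le_univ _).trans ?_
        rw [Fintype.card_finset, card_JJ]
      exact_mod_cast this
    exact mul_le_mul_of_nonneg_right h3 (sq_nonneg b)
  obtain ⟨q, hq, hqb⟩ : ∃ q ∈ Fintype.piFinset (fun _ : Fin k => BB Cen N),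
      ∑ S ∈ bad, (RS X (TT q) S) ^ 2 < (δ * t) ^ 2 := by
    by_contra hcon
    push Not at hcon
    have h1 : EE Cen N (fun _ : Fin k → Blk α => (1:ℝ)) * (δ * t) ^ 2
        ≤ EE Cen N (fun q : Fin k → Blk α => ∑ S ∈ bad, (RS X (TT q) S) ^ 2) := by
      unfold EE
      rw [sum_mul]
      refine sum_le_sum (fun q hq => ?_)
      rw [mul_one]
      refine mul_le_mul_of_nonneg_left (hcon q hq) ?_
      exact prod_nonneg (fun l _ => ww_nonneg Cen N (q l))
    rw [EE_one Cen N hCne hNne, one_mul] at h1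
    linarith
  rw [Fintype.mem_piFinset] at hq
  have hq1 : ∀ l, (q l).1 ∈ Cen ∧ (q l).2.1 ∈ N (q l).1 ∧ (q l).2.2 ∈ N (q l).1 := by
    intro l
    have := hq l
    unfold BB at this
    rw [mem_sigma, mem_product] at this
    exact this
  have hpair : ∀ a c : JJ k, a ≠ c → RS X (TT q) {a, c} = rho X (TT q a) (TT q c) :=
    fun a c hac => RS_pair X (TT q) hac
  have hhigh : ∀ e ∈ HH k, t ≤ RS X (TT q) e ∧ RS X (TT q) e < 5/4 * t := by
    intro e he
    unfold HH at he
    rw [mem_union, mem_image, mem_singleton] at he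
    rcases he with ⟨l, _, rfl⟩ | rfl
    · rw [hpair _ _ (by simp)]
      exact hNw _ _ (hq1 l).2.1
    · rw [hpair _ _ (by simp)]
      exact hNw _ _ (hq1 0).2.2
  have hsmall : ∀ S : Finset (JJ k), S.Nonempty → Even S.card → S ∉ HH k → |RS X (TT q) S| ≤ δ * t := by
    intro S h1 h2 h3
    have h4 : (RS X (TT q) S) ^ 2 ≤ ∑ S ∈ bad, (RS X (TT q) S) ^ 2 := by
      refine single_le_sum (f := fun S => (RS X (TT q) S) ^ 2) (fun S _ => sq_nonneg _) ?_
      rw [hbad, mem_filter]
      exact ⟨mem_univ _, h1, h2, h3⟩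
    have h5 := h4.trans hqb.le
    exact abs_le_of_sq_le_sq h5 (by positivity)
  -- `t` is bounded
  have ht6 : t ≤ 6 / 10 := by
    have hnot : ({some (0, true), none} : Finset (JJ k)) ∉ HH k := by
      intro he
      unfold HH at he
      rw [mem_union, mem_image, mem_singleton] at he
      rcases he with ⟨l, _, he⟩ | he
      · have : (none : JJ k) ∈ ({some (0, true), none} : Finset (JJ k)) := by simp
        rw [← he] at this
        simp at this
      · have : (some (0, false) : JJ k) ∈ ({some (0, false), none} : Finset (JJ k)) := by simp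
        rw [← he] at this
        simp at this
    have h1 := hsmall {some (0, true), none} (by simp) (by rw [card_pair (by simp)]; decide) hnot
    rw [hpair _ _ (by simp)] at h1
    have h2 := tri X hX (q 0).1 (q 0).2.1 (q 0).2.2
    have h3 := (hNw _ _ (hq1 0).2.1).1
    have h4 := (hNw _ _ (hq1 0).2.2).1
    have h5 : rho X (TT q (some (0, true))) (TT q none) = rho X (q 0).2.1 (q 0).2.2 := rfl
    rw [h5] at h1
    have h6 := (abs_le.1 h1).2
    have h7 : δ * t ≤ 1 / 6 * t := mul_le_mul_of_nonneg_right hδ1 ht.le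
    linarith
  have hinj : Function.Injective (TT q) := by
    intro i j hij
    by_contra hne
    have h1 : RS X (TT q) {i, j} = 1 := by
      rw [hpair i j hne, hij, rho_self hX]
    by_cases hH : ({i, j} : Finset (JJ k)) ∈ HH k
    · have := (hhigh _ hH).2
      rw [h1] at this
      linarith
    · have h2 := hsmall {i, j} (by simp) (by rw [card_pair hne]; decide) hH
      rw [h1, abs_one] at h2
      have h7 : δ * t ≤ 1 / 6 * t := mul_le_mul_of_nonneg_right hδ1 ht.le
      linarith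
  have hcov : ∀ i : JJ k, ∃ e ∈ HH k, i ∈ e := by
    intro i
    rcases i with _ | ⟨l, bb⟩
    · exact ⟨_, mem_HH_2, by simp⟩
    · refine ⟨_, mem_HH_1 l, ?_⟩
      cases bb <;> simp
  have hTV : ∀ j : JJ k, TT q j ∈ V := by
    intro j
    rcases j with _ | ⟨l, bb⟩
    · exact hNV _ (hq1 0).2.2
    · cases bb
      · exact hCV (hq1 l).1
      · exact hNV _ (hq1 l).2.1
  refine good_of_T hX (card_JJ k) (TT q) hinj hTV (fun i => ?_)
  rw [sub_zero]
  refine center_window hk (card_JJ k) (TT q) i (HH k) t ht ?_ (hcov i) ?_ (fun e he => (hhigh e he).1)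
    (fun e he => (hhigh e he).2.le) ?_
  · intro e he
    unfold HH at he
    rw [mem_union, mem_image, mem_singleton] at he
    rcases he with ⟨l, _, rfl⟩ | rfl
    · exact ⟨_, _, by simp, rfl⟩
    · exact ⟨_, _, by simp, rfl⟩
  · have h1 : ((HH k).filter (fun e => i ∉ e)) ⊂ HH k := by
      rw [filter_ssubset]
      obtain ⟨e, he, hie⟩ := hcov i
      exact ⟨e, he, by simpa using hie⟩
    have h2 := card_lt_card h1
    have h3 := HH_card k
    omega
  · rw [← hδ]
    exact hsmall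

theorem windowStmt : WindowStmt := by
  intro α ι _ _ _ X hX V k hk t p b ht hp hpV hb hC
  exact window X hX V k hk t p b ht hp hpV hb hC

end win3

end Pool.Agent.H380LD
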